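import Pool.Agent.Helper12.CC.Dom

set_option autoImplicit false
open scoped ContDiff InnerProductSpace
open Set Filter Topology

namespace Pool.Agent.Helper12.CC

/-- the domain -/
def Om : Set (Fin 2 → ℂ) := {x | rho x < 0}

/-- competitors -/
structure Comp (f : (Fin 2 → ℂ) → ℂ) : Prop where
  diff : DifferentiableOn ℂ f Om
  bd : ∀ x ∈ Om, ‖f x‖ ≤ 1

lemma t_small (i : ℕ) : 8 * t i ≤ 1/2 := by
  unfold t
  have : ((1:ℝ)/16) ^ i ≤ 1 := pow_le_one₀ (by norm_num) (by norm_num)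
  rw [pow_succ]; linarith

lemma ball_sq {i : ℕ} {z : ℂ} (hz : ‖z‖ < 8 * t i) : ‖z‖ ^ 2 ≤ 1/2 := by
  have := t_small i
  nlinarith [norm_nonneg z]

lemma dAt_pair {g h : ℂ → ℂ} {S : Set ℂ} (hg : DifferentiableOn ℂ g S)
    (hh : DifferentiableOn ℂ h S) : DifferentiableOn ℂ (fun z => (![g z, h z] : Fin 2 → ℂ)) S := by
  rw [differentiableOn_pi]
  intro j
  fin_cases j
  · simpa using hg
  · simpa using hh

section main
variable {f : (Fin 2 → ℂ) → ℂ} (hf : Comp f)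
include hf

lemma step1 (i : ℕ) {w : ℂ} (hw : ‖w‖ < 1) {σ : ℝ} (hσ : d (i + 1) ≤ σ) :
    ‖f ![0, Complex.exp (-(σ:ℂ)) * w] - (K i : ℂ)⁻¹ * ∑ k ∈ Finset.range (K i),
      f ![a i k, Complex.exp (-(σ:ℂ)) * w * Complex.exp (-H i (a i k))]‖ ≤ 4 / 3 * (1/4) ^ (K i) := by
  let g : ℂ → ℂ := fun z => f ![z, Complex.exp (-(σ:ℂ)) * w * Complex.exp (-H i z)]
  have hmem : ∀ z ∈ Metric.ball (0:ℂ) (8 * t i),
      (![z, Complex.exp (-(σ:ℂ)) * w * Complex.exp (-H i z)] : Fin 2 → ℂ) ∈ Om := by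
    intro z hz
    have hz' : ‖z‖ < 8 * t i := by simpa using hz
    apply mem_dom (ball_sq hz')
    rw [norm_mul, norm_mul, Complex.norm_exp, Complex.norm_exp]
    have h1 := Phi_eq hz'
    have h2 := u_le hz'.le
    simp only [Complex.neg_re, Complex.ofReal_re]
    calc Real.exp (-σ) * ‖w‖ * Real.exp (-(H i z).re)
        < Real.exp (-σ) * 1 * Real.exp (-(H i z).re) := by gcongr
      _ = Real.exp (-σ - (H i z).re) := by rw [mul_one, ← Real.exp_add]; ring_nf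
      _ ≤ Real.exp (-Phi z) := by apply Real.exp_le_exp.mpr; linarith
  have hg : DifferentiableOn ℂ g (Metric.ball 0 (8 * t i)) := by
    apply hf.diff.comp (t := Om) _ hmem
    apply dAt_pair differentiableOn_id
    exact (differentiableOn_const _).mul (H_diff i).neg.cexp
  have hb : ∀ z ∈ Metric.ball (0:ℂ) (8 * t i), ‖g z‖ ≤ 1 := fun z hz => hf.bd _ (hmem z hz)
  have h := mean_val (t_pos i) hg hb (K_pos i) (b := fun k => a i k) (fun k => rfl)
  simp only [g, H_zero, neg_zero, Complex.exp_zero, mul_one] at h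
  exact h

lemma step2 (i : ℕ) {w : ℂ} (hw : ‖w‖ < 1) {k : ℕ} (hk : k < K i) {δ : ℝ} (hδ : 0 ≤ δ) :
    ‖f ![a i k, w * Complex.exp (-H i (a i k))] -
      (2 * f ![a i k, Complex.exp (-(δ:ℂ)) * w * Complex.exp (-H i (a i k))] -
       f ![a i k, Complex.exp (-((2 * δ : ℝ):ℂ)) * w * Complex.exp (-H i (a i k))])‖ ≤
      8 * δ ^ 2 / De i ^ 2 := by
  let φ : ℂ → ℂ := fun s => f ![a i k, Complex.exp (-s) * w * Complex.exp (-H i (a i k))]
  have hmem : ∀ s : ℂ, -De i < s.re →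
      (![a i k, Complex.exp (-s) * w * Complex.exp (-H i (a i k))] : Fin 2 → ℂ) ∈ Om := by
    intro s hs
    have hz' : ‖a i k‖ < 8 * t i := by rw [norm_a]; linarith [t_pos i]
    apply mem_dom (ball_sq hz')
    rw [norm_mul, norm_mul, Complex.norm_exp, Complex.norm_exp]
    have h1 := Phi_eq hz'
    have h2 := u_at' i k hk
    simp only [Complex.neg_re]
    calc Real.exp (-s.re) * ‖w‖ * Real.exp (-(H i (a i k)).re)
        < Real.exp (-s.re) * 1 * Real.exp (-(H i (a i k)).re) := by gcongr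
      _ = Real.exp (-s.re - (H i (a i k)).re) := by rw [mul_one, ← Real.exp_add]; ring_nf
      _ ≤ Real.exp (-Phi (a i k)) := by apply Real.exp_le_exp.mpr; linarith
  have hφ : DifferentiableOn ℂ φ {s | -De i < s.re} := by
    apply hf.diff.comp (t := Om) _ hmem
    apply dAt_pair (differentiableOn_const _)
    exact (differentiableOn_id.neg.cexp.mul_const _).mul_const _
  have h := half_sd (De_pos i) hφ (fun s hs => hf.bd _ (hmem s hs)) hδ
  simp only [φ, neg_zero, Complex.exp_zero, one_mul] at h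
  push_cast
  exact h

/-- extrapolation -/
noncomputable def Q (f : (Fin 2 → ℂ) → ℂ) (σ : ℝ) (w : ℂ) : ℂ :=
  2 * f ![0, Complex.exp (-(σ:ℂ)) * w] - f ![0, Complex.exp (-((2 * σ : ℝ):ℂ)) * w]

lemma step3 (i : ℕ) {w : ℂ} (hw : ‖w‖ < 1) {σ : ℝ} (hσ : d (i + 1) ≤ σ) :
    ‖Q f σ w - (K i : ℂ)⁻¹ * ∑ k ∈ Finset.range (K i), f ![a i k, w * Complex.exp (-H i (a i k))]‖ ≤
      4 * (1/4) ^ (K i) + 8 * σ ^ 2 / De i ^ 2 := by
  have hσ0 : 0 < σ := (d_pos (i + 1)).trans_le hσ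
  have h1 := step1 hf i hw hσ
  have h2 := step1 hf i hw (σ := 2 * σ) (by linarith)
  have hK : (0:ℝ) < K i := K_pos' i
  have h3 : ‖(K i : ℂ)⁻¹ * ∑ k ∈ Finset.range (K i),
      (f ![a i k, w * Complex.exp (-H i (a i k))] -
      (2 * f ![a i k, Complex.exp (-(σ:ℂ)) * w * Complex.exp (-H i (a i k))] -
       f ![a i k, Complex.exp (-((2 * σ : ℝ):ℂ)) * w * Complex.exp (-H i (a i k))]))‖ ≤
      8 * σ ^ 2 / De i ^ 2 := by
    rw [norm_mul, norm_inv, Complex.norm_natCast, inv_mul_le_iff₀ hK]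
    refine (norm_sum_le _ _).trans ?_
    refine (Finset.sum_le_sum fun k hk => step2 hf i hw (Finset.mem_range.mp hk) hσ0.le).trans ?_
    simp
  rw [Finset.sum_sub_distrib, Finset.sum_sub_distrib, ← Finset.mul_sum] at h3
  unfold Q
  set F1 := f ![0, Complex.exp (-(σ:ℂ)) * w]
  set F2 := f ![0, Complex.exp (-((2 * σ : ℝ):ℂ)) * w]
  set S0 := ∑ k ∈ Finset.range (K i), f ![a i k, w * Complex.exp (-H i (a i k))]
  set S1 := ∑ k ∈ Finset.range (K i),
      f ![a i k, Complex.exp (-(σ:ℂ)) * w * Complex.exp (-H i (a i k))]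
  set S2 := ∑ k ∈ Finset.range (K i),
      f ![a i k, Complex.exp (-((2 * σ : ℝ):ℂ)) * w * Complex.exp (-H i (a i k))]
  have h4 : 2 * F1 - F2 - (K i : ℂ)⁻¹ * S0 = (F1 - (K i : ℂ)⁻¹ * S1) + (F1 - (K i : ℂ)⁻¹ * S1) -
      (F2 - (K i : ℂ)⁻¹ * S2) - (K i : ℂ)⁻¹ * (S0 - (2 * S1 - S2)) := by ring
  rw [h4]
  refine (norm_sub_le _ _).trans ?_
  have h5 := norm_sub_le ((F1 - (K i : ℂ)⁻¹ * S1) + (F1 - (K i : ℂ)⁻¹ * S1)) (F2 - (K i : ℂ)⁻¹ * S2)
  have h6 := norm_add_le (F1 - (K i : ℂ)⁻¹ * S1) (F1 - (K i : ℂ)⁻¹ * S1)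
  linarith

end main

/-- error terms -/
noncomputable def eps (i : ℕ) : ℝ := 8 * (1/4) ^ (K i) + 16 * d i ^ 2 / De i ^ 2

lemma step4 {f : (Fin 2 → ℂ) → ℂ} (hf : Comp f) (i : ℕ) {w : ℂ} (hw : ‖w‖ < 1) :
    ‖Q f (d i) w - Q f (d (i + 1)) w‖ ≤ eps i := by
  have hd : d (i + 1) ≤ d i := by have := d_succ_le i; have := d_pos i; linarith
  have h1 := step3 hf i hw (σ := d i) hd
  have h2 := step3 hf i hw (σ := d (i + 1)) le_rfl
  set S := (K i : ℂ)⁻¹ * ∑ k ∈ Finset.range (K i), f ![a i k, w * Complex.exp (-H i (a i k))]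
  have h3 : Q f (d i) w - Q f (d (i + 1)) w = (Q f (d i) w - S) - (Q f (d (i + 1)) w - S) := by ring
  rw [h3]
  refine (norm_sub_le _ _).trans ?_
  have h4 : 8 * d (i + 1) ^ 2 / De i ^ 2 ≤ 8 * d i ^ 2 / De i ^ 2 := by
    have := d_pos (i + 1); have := De_pos i
    gcongr
  have h5 : eps i = (4 * (1/4) ^ (K i) + 8 * d i ^ 2 / De i ^ 2) +
      (4 * (1/4) ^ (K i) + 8 * d i ^ 2 / De i ^ 2) := by unfold eps; ring
  linarith

lemma eps_nonneg (i : ℕ) : 0 ≤ eps i := by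
  unfold eps; positivity

lemma eps_summable : Summable eps := by
  have hs : Summable (fun i : ℕ => ((i + 2 : ℕ) : ℝ) ^ (-(3/2) : ℝ)) :=
    (summable_nat_add_iff 2).mpr (Real.summable_nat_rpow.mpr (by norm_num))
  apply Summable.of_nonneg_of_le eps_nonneg _ (hs.mul_left (8 + 16 * 17 ^ 4))
  intro i
  set y : ℝ := ((i + 2 : ℕ) : ℝ) with hy
  have hy1 : 2 ≤ y := by rw [hy]; push_cast; linarith [(Nat.cast_nonneg i : (0:ℝ) ≤ i)]
  have hy0 : 0 < y := by linarith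
  have hK1 : (K i : ℝ) + 4 ≤ 17 * y ^ (1/8 : ℝ) := by
    have h1 : ((Nat.log 2 (i + 2) : ℕ) : ℝ) ≤ Real.logb 2 y := Real.natLog_le_logb (i + 2) 2
    have h2 : Real.log y ≤ y ^ (1/8 : ℝ) / (1/8) := Real.log_le_rpow_div hy0.le (by norm_num)
    have h3 : (1:ℝ) ≤ y ^ (1/8 : ℝ) := Real.one_le_rpow (by linarith) (by norm_num)
    have h4 := Real.log_two_gt_d9
    have h5 : Real.logb 2 y ≤ 12 * y ^ (1/8 : ℝ) := by
      unfold Real.logb
      rw [div_le_iff₀ (by linarith)]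
      nlinarith
    unfold K
    push_cast
    linarith
  set r : ℝ := y ^ (1/8 : ℝ) with hr
  have hr1 : (1:ℝ) ≤ r := Real.one_le_rpow (by linarith) (by norm_num)
  have hr0 : 0 < r := by linarith
  have hr8 : y = r ^ 8 := by
    rw [hr, ← Real.rpow_natCast, ← Real.rpow_mul hy0.le]; norm_num
  have hr12 : y ^ (-(3/2) : ℝ) = (r ^ 12)⁻¹ := by
    rw [hr, ← Real.rpow_natCast, ← Real.rpow_mul hy0.le, ← Real.rpow_neg hy0.le]; norm_num
  rw [hr12]
  have hKp := K_pos' i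
  have hd1 := d_pos (i + 1)
  have hA : ((1:ℝ)/4) ^ (K i) ≤ (r ^ 12)⁻¹ := by
    have h1 : y ≤ 2 ^ (K i) := by
      have := two_pow_K i
      rw [hy]; push_cast; linarith
    have h2 : ((1:ℝ)/4) ^ (K i) = ((2 ^ (K i)) ^ 2)⁻¹ := by
      rw [← pow_mul, mul_comm, pow_mul, ← inv_pow]; norm_num
    rw [h2]
    apply inv_anti₀ (by positivity)
    calc r ^ 12 ≤ r ^ 16 := pow_le_pow_right₀ hr1 (by norm_num)
      _ = y ^ 2 := by rw [hr8]; ring
      _ ≤ (2 ^ (K i)) ^ 2 := by gcongr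
  have hB : d i ^ 2 / De i ^ 2 ≤ 17 ^ 4 * (r ^ 12)⁻¹ := by
    have h1 : d i / De i ≤ (17 * r) ^ 2 / y := by
      rw [← d_succ i]
      unfold De
      have h2 : y ≤ 2 * ((i:ℝ) + 1) := by
        rw [hy]; push_cast; linarith [(Nat.cast_nonneg i : (0:ℝ) ≤ i)]
      have h3 : d (i + 1) * ((K i : ℝ) + 4) / (2 * d (i + 1) * ((i:ℝ) + 1) / K i) =
          (((K i : ℝ) + 4) * K i) / (2 * ((i:ℝ) + 1)) := by
        field_simp
      rw [h3]
      have h4 : ((K i : ℝ) + 4) * K i ≤ (17 * r) ^ 2 := by nlinarith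
      gcongr
    have h5 : 0 ≤ d i / De i := by
      have := De_pos i; have := d_pos i; positivity
    calc d i ^ 2 / De i ^ 2 = (d i / De i) ^ 2 := by rw [div_pow]
      _ ≤ ((17 * r) ^ 2 / y) ^ 2 := by gcongr
      _ = 17 ^ 4 * (r ^ 12)⁻¹ := by
        rw [hr8]; field_simp
  unfold eps
  rw [mul_div_assoc]
  linarith

lemma Q_lip {f : (Fin 2 → ℂ) → ℂ} (hf : Comp f) {σ : ℝ} (hσ : 0 < σ) {w w' : ℂ} (hw : ‖w‖ < 1)
    (hw' : ‖w'‖ < 1) : ‖Q f σ w - Q f σ w'‖ ≤ 3 / (1 - Real.exp (-σ)) * ‖w - w'‖ := by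
  have hmem : ∀ W ∈ Metric.ball (0:ℂ) 1, (![0, W] : Fin 2 → ℂ) ∈ Om := by
    intro W hW
    apply mem_dom (by norm_num)
    rw [Phi_zero]; simpa using hW
  have hd : DifferentiableOn ℂ (fun W => f ![0, W]) (Metric.ball 0 1) := by
    apply hf.diff.comp (t := Om) _ hmem
    exact dAt_pair (differentiableOn_const _) differentiableOn_id
  have he : Real.exp (-σ) < 1 := by rw [Real.exp_lt_one_iff]; linarith
  have key : ∀ τ : ℝ, σ ≤ τ → ‖f ![0, Complex.exp (-(τ:ℂ)) * w] - f ![0, Complex.exp (-(τ:ℂ)) * w']‖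
      ≤ 1 / (1 - Real.exp (-σ)) * ‖w - w'‖ := by
    intro τ hτ
    have hn : ∀ v : ℂ, ‖v‖ < 1 → ‖Complex.exp (-(τ:ℂ)) * v‖ < Real.exp (-σ) := by
      intro v hv
      rw [norm_mul, Complex.norm_exp]
      simp only [Complex.neg_re, Complex.ofReal_re]
      have h1 : Real.exp (-τ) ≤ Real.exp (-σ) := Real.exp_le_exp.mpr (by linarith)
      have h2 := Real.exp_pos (-τ)
      have h3 := norm_nonneg v
      nlinarith
    have h := disc_lip hd (fun z hz => hf.bd _ (hmem z hz)) he (hn w hw) (hn w' hw')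
    refine h.trans ?_
    apply mul_le_mul_of_nonneg_left _ (by apply div_nonneg zero_le_one; linarith)
    rw [← mul_sub, norm_mul, Complex.norm_exp]
    simp only [Complex.neg_re, Complex.ofReal_re]
    have h1 : Real.exp (-τ) ≤ 1 := by rw [Real.exp_le_one_iff]; linarith
    have h3 := norm_nonneg (w - w')
    nlinarith
  have h1 := key σ le_rfl
  have h2 := key (2 * σ) (by linarith)
  unfold Q
  set A1 := f ![0, Complex.exp (-(σ:ℂ)) * w]
  set A2 := f ![0, Complex.exp (-(σ:ℂ)) * w']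
  set B1 := f ![0, Complex.exp (-((2 * σ : ℝ):ℂ)) * w]
  set B2 := f ![0, Complex.exp (-((2 * σ : ℝ):ℂ)) * w']
  have h4 : 2 * A1 - B1 - (2 * A2 - B2) = (A1 - A2) + (A1 - A2) - (B1 - B2) := by ring
  rw [h4]
  have h5 := norm_sub_le ((A1 - A2) + (A1 - A2)) (B1 - B2)
  have h6 := norm_add_le (A1 - A2) (A1 - A2)
  have h7 : 3 / (1 - Real.exp (-σ)) * ‖w - w'‖ = 1 / (1 - Real.exp (-σ)) * ‖w - w'‖ +
    1 / (1 - Real.exp (-σ)) * ‖w - w'‖ + 1 / (1 - Real.exp (-σ)) * ‖w - w'‖ := by ring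
  linarith

lemma d_tendsto : Tendsto d atTop (𝓝 0) := by
  have h1 : Tendsto (fun q : ℕ => ((1:ℝ)/4) ^ q) atTop (𝓝 0) :=
    tendsto_pow_atTop_nhds_zero_of_lt_one (by norm_num) (by norm_num)
  refine squeeze_zero (fun q => (d_pos q).le) (fun q => ?_) h1
  have := d_le 0 q
  simpa [d] using this

lemma Q_tendsto {f : (Fin 2 → ℂ) → ℂ} (hf : Comp f) {w : ℂ} (hw : ‖w‖ < 1) :
    Tendsto (fun i => Q f (d i) w) atTop (𝓝 (f ![0, w])) := by
  have hmem : ∀ W ∈ Metric.ball (0:ℂ) 1, (![0, W] : Fin 2 → ℂ) ∈ Om := by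
    intro W hW
    apply mem_dom (by norm_num)
    rw [Phi_zero]; simpa using hW
  have hd : DifferentiableOn ℂ (fun W => f ![0, W]) (Metric.ball 0 1) := by
    apply hf.diff.comp (t := Om) _ hmem
    exact dAt_pair (differentiableOn_const _) differentiableOn_id
  have hc : ContinuousAt (fun W => f ![0, W]) w :=
    (hd.differentiableAt (Metric.isOpen_ball.mem_nhds (by simpa using hw))).continuousAt
  have h1 : Tendsto (fun i => Complex.exp (-((d i : ℝ):ℂ)) * w) atTop (𝓝 w) := by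
    have h2 : Tendsto (fun σ : ℝ => Complex.exp (-(σ:ℂ)) * w) (𝓝 0) (𝓝 w) := by
      have : Continuous (fun σ : ℝ => Complex.exp (-(σ:ℂ)) * w) := by fun_prop
      simpa using this.tendsto 0
    exact h2.comp d_tendsto
  have h3 : Tendsto (fun i => Complex.exp (-((2 * d i : ℝ):ℂ)) * w) atTop (𝓝 w) := by
    have h2 : Tendsto (fun σ : ℝ => Complex.exp (-((2 * σ : ℝ):ℂ)) * w) (𝓝 0) (𝓝 w) := by
      have : Continuous (fun σ : ℝ => Complex.exp (-((2 * σ : ℝ):ℂ)) * w) := by fun_prop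
      simpa using this.tendsto 0
    exact h2.comp d_tendsto
  have h4 := ((hc.tendsto.comp h1).const_mul 2).sub (hc.tendsto.comp h3)
  have h5 : 2 * f ![0, w] - f ![0, w] = f ![0, w] := by ring
  simp only [h5] at h4
  exact h4

lemma main_est {f : (Fin 2 → ℂ) → ℂ} (hf : Comp f) (i : ℕ) {w w' : ℂ} (hw : ‖w‖ < 1)
    (hw' : ‖w'‖ < 1) : ‖f ![0, w] - f ![0, w']‖ ≤
      3 / (1 - Real.exp (-d i)) * ‖w - w'‖ + 2 * ∑' m, eps (i + m) := by
  have h1 : ∀ v : ℂ, ‖v‖ < 1 → dist (Q f (d i) v) (f ![0, v]) ≤ ∑' m, eps (i + m) := by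
    intro v hv
    apply dist_le_tsum_of_dist_le_of_tendsto eps _ eps_summable (Q_tendsto hf hv)
    intro n
    rw [dist_eq_norm]
    exact step4 hf n hv
  have h2 := h1 w hw
  have h3 := h1 w' hw'
  have h4 := Q_lip hf (d_pos i) hw hw'
  have h5 : dist (f ![0, w]) (f ![0, w']) ≤ dist (f ![0, w]) (Q f (d i) w) +
    dist (Q f (d i) w) (Q f (d i) w') + dist (Q f (d i) w') (f ![0, w']) := dist_triangle4 _ _ _ _
  rw [dist_comm (f ![0, w]) (Q f (d i) w), dist_eq_norm (Q f (d i) w) (Q f (d i) w'),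
    dist_eq_norm (f ![0, w])] at h5
  linarith

/-- the non-convergent Cauchy sequence -/
noncomputable def wn (n : ℕ) : ℂ := ((1 - 1 / ((n:ℝ) + 2) : ℝ) : ℂ)
noncomputable def xn (n : ℕ) : Fin 2 → ℂ := ![0, wn n]

lemma wn_norm (n : ℕ) : ‖wn n‖ < 1 := by
  unfold wn
  have h1 : (0:ℝ) < 1 / ((n:ℝ) + 2) := by positivity
  have h2 : 1 / ((n:ℝ) + 2) ≤ 1 := by
    rw [div_le_one (by positivity)]; linarith [(Nat.cast_nonneg n : (0:ℝ) ≤ n)]
  rw [Complex.norm_real, Real.norm_eq_abs, abs_lt]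
  constructor <;> linarith

lemma wn_tendsto : Tendsto wn atTop (𝓝 1) := by
  have h1 : Tendsto (fun n : ℕ => (1 - 1 / ((n:ℝ) + 2) : ℝ)) atTop (𝓝 (1 - 0)) := by
    apply Tendsto.const_sub
    apply Tendsto.const_div_atTop
    exact tendsto_atTop_add_const_right _ _ tendsto_natCast_atTop_atTop
  have h2 := (Complex.continuous_ofReal.tendsto _).comp h1
  have h3 : wn = Complex.ofReal ∘ fun n : ℕ => (1 - 1 / ((n:ℝ) + 2) : ℝ) := rfl
  rw [h3]
  simpa using h2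

lemma unif_cauchy {η : ℝ} (hη : 0 < η) : ∃ N : ℕ, ∀ j ≥ N, ∀ k ≥ N, ∀ f, Comp f →
    ‖f (xn j) - f (xn k)‖ ≤ η := by
  have h1 : Tendsto (fun i => 2 * ∑' m, eps (m + i)) atTop (𝓝 (2 * 0)) :=
    (tendsto_sum_nat_add eps).const_mul 2
  rw [mul_zero] at h1
  obtain ⟨i, hi⟩ := (h1.eventually (gt_mem_nhds (half_pos hη))).exists
  have he : Real.exp (-d i) < 1 := by
    have := d_pos i
    rw [Real.exp_lt_one_iff]; linarith
  set C := 3 / (1 - Real.exp (-d i)) with hC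
  have hC0 : 0 < C := by rw [hC]; apply div_pos (by norm_num); linarith
  have h2 : CauchySeq wn := wn_tendsto.cauchySeq
  obtain ⟨N, hN⟩ := Metric.cauchySeq_iff.mp h2 (η / 2 / C) (by positivity)
  refine ⟨N, fun j hj k hk f hf => ?_⟩
  have h3 := main_est hf i (wn_norm j) (wn_norm k)
  have h4 := hN j hj k hk
  rw [dist_eq_norm, lt_div_iff₀ hC0] at h4
  simp only [add_comm i] at h3
  unfold xn
  linarith

end Pool.Agent.Helper12.CC
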