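import Mathlib

set_option autoImplicit false
open Set Filter Topology

namespace Pool.Agent.Helper12.CC

lemma deriv_bd {φ : ℂ → ℂ} {U : Set ℂ} (hφ : DifferentiableOn ℂ φ U) {M : ℝ}
    (hM : ∀ z ∈ U, ‖φ z‖ ≤ M) {c : ℂ} {r : ℝ} (hr : 0 < r) (hc : Metric.closedBall c r ⊆ U) :
    ‖deriv φ c‖ ≤ M / r := by
  apply Complex.norm_deriv_le_of_forall_mem_sphere_norm_le hr
  · apply DifferentiableOn.diffContOnCl
    exact hφ.mono ((closure_mono Metric.ball_subset_closedBall).trans
      (by rw [Metric.isClosed_closedBall.closure_eq]; exact hc))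
  · intro z hz
    exact hM z (hc (Metric.sphere_subset_closedBall hz))

lemma disc_lip {h : ℂ → ℂ} (hd : DifferentiableOn ℂ h (Metric.ball 0 1))
    (hb : ∀ z ∈ Metric.ball (0:ℂ) 1, ‖h z‖ ≤ 1) {ρ : ℝ} (hρ : ρ < 1) {W W' : ℂ}
    (hW : ‖W‖ < ρ) (hW' : ‖W'‖ < ρ) : ‖h W - h W'‖ ≤ 1 / (1 - ρ) * ‖W - W'‖ := by
  apply Convex.norm_image_sub_le_of_norm_deriv_le (s := Metric.ball (0:ℂ) ρ)
  · intro x hx
    refine (hd x ?_).differentiableAt (Metric.isOpen_ball.mem_nhds ?_) <;>
    · simp only [Metric.mem_ball, dist_zero_right] at hx ⊢; linarith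
  · intro x hx
    apply deriv_bd hd hb (by linarith)
    intro y hy
    simp only [Metric.mem_ball, Metric.mem_closedBall, dist_eq_norm, sub_zero] at hx hy ⊢
    have : ‖y‖ ≤ ‖y - x‖ + ‖x‖ := by simpa using norm_add_le (y - x) x
    linarith
  · exact convex_ball _ _
  · simpa using hW'
  · simpa using hW

lemma half_fd {φ : ℂ → ℂ} {a M : ℝ} (hφ : DifferentiableOn ℂ φ {z | -a < z.re})
    (hM : ∀ z : ℂ, -a < z.re → ‖φ z‖ ≤ M) {r : ℝ} (hr : 0 < r) {z : ℂ} (hz : -a + r < z.re)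
    {δ : ℝ} (hδ : 0 ≤ δ) : ‖φ (z + δ) - φ z‖ ≤ M / r * δ := by
  have hopen : IsOpen {z : ℂ | -a < z.re} := isOpen_lt continuous_const Complex.continuous_re
  have key : ‖φ (z + δ) - φ z‖ ≤ M / r * ‖(z + δ) - z‖ := by
    apply Convex.norm_image_sub_le_of_norm_deriv_le (s := {z : ℂ | -a + r < z.re})
    · intro x hx
      simp only [mem_ofPred_eq] at hx
      exact (hφ x (by simp only [mem_ofPred_eq]; linarith)).differentiableAt
        (hopen.mem_nhds (by simp only [mem_ofPred_eq]; linarith))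
    · intro x hx
      apply deriv_bd hφ hM hr
      intro y hy
      simp only [Metric.mem_closedBall, dist_eq_norm, mem_ofPred_eq] at hx hy ⊢
      have h1 := Complex.abs_re_le_norm (y - x)
      have h2 := neg_abs_le (y - x).re
      simp only [Complex.sub_re] at h1 h2
      linarith
    · exact convex_halfSpace_re_gt _
    · exact hz
    · simp only [mem_ofPred_eq, Complex.add_re, Complex.ofReal_re]; linarith
  simpa [abs_of_nonneg hδ] using key

lemma half_sd {φ : ℂ → ℂ} {D : ℝ} (hD : 0 < D) (hφ : DifferentiableOn ℂ φ {z | -D < z.re})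
    (hM : ∀ z : ℂ, -D < z.re → ‖φ z‖ ≤ 1) {δ : ℝ} (hδ : 0 ≤ δ) :
    ‖φ 0 - (2 * φ δ - φ (2 * δ))‖ ≤ 8 * δ ^ 2 / D ^ 2 := by
  let g : ℂ → ℂ := fun z => φ (z + δ) - φ z
  have hg : DifferentiableOn ℂ g {z | -(D / 2) < z.re} := by
    apply DifferentiableOn.sub
    · apply hφ.comp (differentiableOn_id.add_const _)
      intro z hz
      simp only [mem_ofPred_eq, Complex.add_re, Complex.ofReal_re, id] at hz ⊢; linarith
    · apply hφ.mono
      intro z hz
      simp only [mem_ofPred_eq] at hz ⊢; linarith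
  have hgM : ∀ z : ℂ, -(D / 2) < z.re → ‖g z‖ ≤ 1 / (D / 2) * δ := by
    intro z hz
    exact half_fd hφ hM (by linarith) (by linarith) hδ
  have h1 := half_fd hg hgM (r := D / 4) (by linarith) (z := 0)
    (by simp only [Complex.zero_re]; linarith) hδ
  simp only [g, zero_add] at h1
  have h2 : φ (↑δ + ↑δ) - φ ↑δ - (φ ↑δ - φ 0) = φ 0 - (2 * φ δ - φ (2 * δ)) := by
    rw [← two_mul]; ring
  rw [h2] at h1
  refine h1.trans (le_of_eq ?_)
  field_simp
  ring

/-- mean value over the `K`-th roots of unity -/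
lemma mean_val {g : ℂ → ℂ} {t : ℝ} (ht : 0 < t)
    (hg : DifferentiableOn ℂ g (Metric.ball 0 (8 * t)))
    (hb : ∀ z ∈ Metric.ball (0:ℂ) (8 * t), ‖g z‖ ≤ 1) {K : ℕ} (hK : 0 < K) {b : ℕ → ℂ}
    (hbk : ∀ k, b k = t * Complex.exp (2 * Real.pi * Complex.I * k / K)) :
    ‖g 0 - (K:ℂ)⁻¹ * ∑ k ∈ Finset.range K, g (b k)‖ ≤ 4 / 3 * (1/4) ^ K := by
  have hK0 : (K:ℂ) ≠ 0 := by exact_mod_cast hK.ne'
  set c : ℕ → ℂ := fun n => ((n.factorial : ℂ))⁻¹ * iteratedDeriv n g 0 with hc
  have hser : ∀ z ∈ Metric.ball (0:ℂ) (8 * t), HasSum (fun n => c n * z ^ n) (g z) := by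
    intro z hz
    have h1 := Complex.hasSum_taylorSeries_on_ball hg hz
    have h2 : (fun n : ℕ => ((n.factorial : ℂ))⁻¹ • (z - 0) ^ n • iteratedDeriv n g 0) =
        fun n => c n * z ^ n := by
      ext n
      simp only [hc, sub_zero, smul_eq_mul]; ring
    rw [h2] at h1; exact h1
  have hcn : ∀ n, ‖c n‖ * t ^ n ≤ (1/4) ^ n := by
    intro n
    have h1 : ‖iteratedDeriv n g 0‖ ≤ n.factorial * 1 / (4 * t) ^ n := by
      apply Complex.norm_iteratedDeriv_le_of_forall_mem_sphere_norm_le n (by linarith)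
      · apply DifferentiableOn.diffContOnCl
        apply hg.mono
        rw [closure_ball _ (by linarith)]
        exact Metric.closedBall_subset_ball (by linarith)
      · intro z hz
        apply hb
        simp only [mem_sphere_iff_norm, sub_zero, Metric.mem_ball, dist_zero_right] at hz ⊢
        linarith
    have h2 : ‖c n‖ ≤ 1 / (4 * t) ^ n := by
      rw [hc]
      simp only [norm_mul, norm_inv, Complex.norm_natCast]
      have h3 : (0:ℝ) < n.factorial := by exact_mod_cast n.factorial_pos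
      rw [inv_mul_le_iff₀ h3]
      calc _ ≤ _ := h1
        _ = _ := by ring
    calc ‖c n‖ * t ^ n ≤ 1 / (4 * t) ^ n * t ^ n := by gcongr
      _ = (1/4) ^ n := by
        rw [mul_pow, div_pow, one_pow]
        field_simp
  have hbn : ∀ k, ‖b k‖ = t := by
    intro k
    rw [hbk]
    have : (2 * Real.pi * Complex.I * k / K : ℂ) = ((2 * Real.pi * k / K : ℝ) : ℂ) * Complex.I := by
      push_cast; ring
    rw [norm_mul, this, Complex.norm_exp_ofReal_mul_I, mul_one, Complex.norm_real,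
      Real.norm_eq_abs, abs_of_pos ht]
  have hpow : ∀ n, n ≠ 0 → n < K → ∑ k ∈ Finset.range K, (b k) ^ n = 0 := by
    intro n hn0 hnK
    have hprim := Complex.isPrimitiveRoot_exp K hK.ne'
    set ζ := Complex.exp (2 * Real.pi * Complex.I / K) with hζ
    have h1 : ∀ k, (b k) ^ n = t ^ n * (ζ ^ n) ^ k := by
      intro k
      rw [hbk, mul_pow, hζ, ← Complex.exp_nat_mul, ← Complex.exp_nat_mul, ← Complex.exp_nat_mul]
      congr 2
      ring
    simp only [h1]
    rw [← Finset.mul_sum, geom_sum_eq (hprim.pow_ne_one_of_pos_of_lt hn0 hnK), ← pow_mul,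
      mul_comm n K, pow_mul, hprim.pow_eq_one, one_pow, sub_self, zero_div, mul_zero]
  have hS : HasSum (fun n => c n * (0:ℂ) ^ n - (K:ℂ)⁻¹ * ∑ k ∈ Finset.range K, c n * (b k) ^ n)
      (g 0 - (K:ℂ)⁻¹ * ∑ k ∈ Finset.range K, g (b k)) := by
    apply (hser 0 (by simpa using ht)).sub
    apply HasSum.mul_left
    apply hasSum_sum
    intro k _
    apply hser
    simp only [Metric.mem_ball, dist_zero_right, hbn]; linarith
  set e : ℕ → ℂ := fun n => c n * (0:ℂ) ^ n - (K:ℂ)⁻¹ * ∑ k ∈ Finset.range K, c n * (b k) ^ n with he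
  have he0 : ∀ n < K, e n = 0 := by
    intro n hn
    by_cases h0 : n = 0
    · subst h0
      simp only [he, pow_zero, mul_one, Finset.sum_const, Finset.card_range, nsmul_eq_mul]
      field_simp
      ring
    · simp only [he]
      rw [← Finset.mul_sum, hpow n h0 hn]
      simp [h0]
  have hen : ∀ n ≥ K, ‖e n‖ ≤ (1/4) ^ n := by
    intro n hn
    have h0 : n ≠ 0 := by omega
    simp only [he, ne_eq, h0, not_false_eq_true, zero_pow, mul_zero, zero_sub, norm_neg]
    rw [norm_mul, norm_inv, Complex.norm_natCast]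
    have hK' : (0:ℝ) < K := by exact_mod_cast hK
    rw [inv_mul_le_iff₀ hK']
    refine (norm_sum_le _ _).trans ?_
    have h1 : ∀ k ∈ Finset.range K, ‖c n * b k ^ n‖ ≤ (1/4) ^ n := by
      intro k _
      rw [norm_mul, norm_pow, hbn]; exact hcn n
    refine (Finset.sum_le_sum h1).trans ?_
    simp
  have hS' : HasSum (fun m => e (m + K)) (g 0 - (K:ℂ)⁻¹ * ∑ k ∈ Finset.range K, g (b k)) := by
    have := (hasSum_nat_add_iff' K).mpr hS
    rwa [Finset.sum_eq_zero (fun n hn => he0 n (Finset.mem_range.mp hn)), sub_zero] at this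
  have hG : HasSum (fun m : ℕ => ((1:ℝ)/4) ^ K * (1/4) ^ m) ((1/4) ^ K * (1 - 1/4)⁻¹) :=
    (hasSum_geometric_of_lt_one (by norm_num) (by norm_num)).mul_left _
  have := hS'.norm_le_of_bounded hG (fun m => by
    rw [← pow_add, add_comm K m]
    exact hen (m + K) (by omega))
  calc _ ≤ _ := this
    _ = _ := by norm_num; ring

end Pool.Agent.Helper12.CC
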