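import Pool.Agent.Helper12.CC.Est
import Pool.Agent.Helper12.CC.One

set_option autoImplicit false
open scoped ContDiff InnerProductSpace
open Set Filter Topology

namespace Pool.Agent.Helper12.CC

/-- squared norm -/
noncomputable def Nn (w : ℂ) : ℝ := ‖w‖ ^ 2

lemma Nn_contDiff : ContDiff ℝ ∞ Nn := contDiff_norm_sq ℝ

lemma Nn_hasFDerivAt (w : ℂ) : HasFDerivAt Nn (2 • innerSL ℝ w) w :=
  (hasStrictFDerivAt_norm_sq w).hasFDerivAt

lemma Nn_fderiv (w b : ℂ) : fderiv ℝ Nn w b = 2 * ⟪w, b⟫_ℝ := by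
  rw [(Nn_hasFDerivAt w).fderiv]
  simp
  ring

lemma Nn_D2 (w b : ℂ) : D2 Nn w b = 2 * ‖b‖ ^ 2 := by
  unfold D2
  have h : fderiv ℝ Nn = fun w => 2 • innerSL ℝ w := funext fun w => (Nn_hasFDerivAt w).fderiv
  have h3 : HasFDerivAt (fun z : ℂ => innerSL ℝ z) (innerSL ℝ (E := ℂ)) w :=
    (innerSL ℝ (E := ℂ)).hasFDerivAt
  have h4 : HasFDerivAt (fun z : ℂ => (2:ℝ) • innerSL ℝ z) ((2:ℝ) • innerSL ℝ (E := ℂ)) w :=
    h3.const_smul (2:ℝ)
  have h5 : (fun w : ℂ => 2 • innerSL ℝ w) = fun z : ℂ => (2:ℝ) • innerSL ℝ z := by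
    ext z v; simp; ring
  rw [h, h5, h4.fderiv]
  have h6 : ((innerSL ℝ) b) b = ‖b‖ ^ 2 := by
    rw [innerSL_apply_apply, real_inner_self_eq_norm_sq]
  simp only [smul_apply, h6, smul_eq_mul]

/-- exponential weight -/
noncomputable def G (z : ℂ) : ℝ := Real.exp (2 * Phi z)

lemma twoPhi_contDiff : ContDiff ℝ ∞ (fun z => 2 * Phi z) := contDiff_const.mul Phi_contDiff

lemma G_contDiff : ContDiff ℝ ∞ G := Real.contDiff_exp.comp twoPhi_contDiff

lemma G_pos (z : ℂ) : 0 < G z := Real.exp_pos _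

lemma G_fderiv (z v : ℂ) : fderiv ℝ G z v = G z * (2 * fderiv ℝ Phi z v) := by
  unfold G
  rw [fderiv_expo twoPhi_contDiff, fderiv_const_mul (cd_diff Phi_contDiff z)]
  rfl

lemma G_D2 (z v : ℂ) : D2 G z v = G z * (2 * D2 Phi z v + (2 * fderiv ℝ Phi z v) ^ 2) := by
  unfold G
  rw [D2_exp twoPhi_contDiff, D2_const_mul Phi_contDiff, fderiv_const_mul (cd_diff Phi_contDiff z)]
  rfl

/-- coordinates -/
noncomputable def pr (j : Fin 2) : (Fin 2 → ℂ) →L[ℝ] ℂ := ContinuousLinearMap.proj j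

lemma pr_apply (j : Fin 2) (x : Fin 2 → ℂ) : pr j x = x j := rfl

/-- the defining function -/
noncomputable def rho (x : Fin 2 → ℂ) : ℝ :=
  Nn (pr 1 x) * G (pr 0 x) + (psi (pr 0 x) + (-psi 0 - 1))

lemma rho_apply (x : Fin 2 → ℂ) :
    rho x = ‖x 1‖ ^ 2 * Real.exp (2 * Phi (x 0)) + (psi (x 0) + (-psi 0 - 1)) := rfl

lemma N1_contDiff : ContDiff ℝ ∞ (fun x => Nn (pr 1 x)) := Nn_contDiff.comp (pr 1).contDiff
lemma G0_contDiff : ContDiff ℝ ∞ (fun x => G (pr 0 x)) := G_contDiff.comp (pr 0).contDiff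
lemma psi0_contDiff : ContDiff ℝ ∞ (fun x => psi (pr 0 x)) := psi_contDiff.comp (pr 0).contDiff

lemma rho_contDiff : ContDiff ℝ ∞ rho :=
  (N1_contDiff.mul G0_contDiff).add (psi0_contDiff.add contDiff_const)

lemma rho_D2 (p v : Fin 2 → ℂ) : D2 rho p v =
    ‖p 1‖ ^ 2 * (G (p 0) * (2 * D2 Phi (p 0) (v 0) + (2 * fderiv ℝ Phi (p 0) (v 0)) ^ 2)) +
    2 * (2 * ⟪p 1, v 1⟫_ℝ * (G (p 0) * (2 * fderiv ℝ Phi (p 0) (v 0)))) +
    G (p 0) * (2 * ‖v 1‖ ^ 2) + D2 psi (p 0) (v 0) := by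
  unfold rho
  rw [D2_add (N1_contDiff.mul G0_contDiff) (psi0_contDiff.add contDiff_const),
    D2_mul N1_contDiff G0_contDiff, D2_add_const, D2_clm psi_contDiff, D2_clm G_contDiff,
    D2_clm Nn_contDiff, fderiv_clm Nn_contDiff, fderiv_clm G_contDiff, G_D2, G_fderiv,
    Nn_fderiv, Nn_D2]
  simp only [pr_apply]
  rfl

lemma quad {W b2 A Bq p q : ℝ} (hW : 0 ≤ W) (hb : 0 ≤ b2) (h : A ^ 2 + Bq ^ 2 = W * b2) :
    0 ≤ W * (p ^ 2 + q ^ 2) + 2 * (A * p + Bq * q) + b2 := by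
  rcases hW.eq_or_lt with hW0 | hW0
  · rw [← hW0] at h ⊢
    have h1 : A = 0 := by nlinarith [sq_nonneg A, sq_nonneg Bq]
    have h2 : Bq = 0 := by nlinarith [sq_nonneg A, sq_nonneg Bq]
    subst h1 h2
    simpa using hb
  · have h3 : 0 ≤ W * (W * (p ^ 2 + q ^ 2) + 2 * (A * p + Bq * q) + b2) := by
      have : W * (W * (p ^ 2 + q ^ 2) + 2 * (A * p + Bq * q) + b2) =
          (W * p + A) ^ 2 + (W * q + Bq) ^ 2 := by
        linear_combination (-1) * h
      rw [this]; positivity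
    exact nonneg_of_mul_nonneg_right h3 hW0

lemma rho_lev (p w : Fin 2 → ℂ) : 0 ≤ D2 rho p w + D2 rho p (Complex.I • w) := by
  rw [rho_D2, rho_D2]
  have hI : ∀ j, (Complex.I • w) j = Complex.I • (w j) := fun j => rfl
  simp only [hI]
  have h1 := Phi_lev (p 0) (w 0)
  have h2 : 0 ≤ D2 psi (p 0) (w 0) + D2 psi (p 0) (Complex.I • w 0) := psi_lev _ _
  have h3 := inner_sq_add (p 1) (w 1)
  have h4 : ‖Complex.I • w 1‖ = ‖w 1‖ := by simp
  rw [h4]
  have h5 := quad (p := fderiv ℝ Phi (p 0) (w 0)) (q := fderiv ℝ Phi (p 0) (Complex.I • w 0))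
    (sq_nonneg ‖p 1‖) (sq_nonneg ‖w 1‖) h3
  have hG := G_pos (p 0)
  have h6 : 0 ≤ ‖p 1‖ ^ 2 * (D2 Phi (p 0) (w 0) + D2 Phi (p 0) (Complex.I • w 0)) :=
    mul_nonneg (sq_nonneg _) h1
  have h7 := mul_nonneg hG.le h5
  have h8 := mul_nonneg hG.le h6
  generalize D2 Phi (p 0) (w 0) = a1 at *
  generalize D2 Phi (p 0) (Complex.I • w 0) = a2 at *
  generalize fderiv ℝ Phi (p 0) (w 0) = b1 at *
  generalize fderiv ℝ Phi (p 0) (Complex.I • w 0) = b2 at *
  generalize ⟪p 1, w 1⟫_ℝ = c1 at *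
  generalize ⟪p 1, Complex.I • w 1⟫_ℝ = c2 at *
  generalize G (p 0) = g at *
  nlinarith [h7, h8, h2]

lemma rho_fderiv (p v : Fin 2 → ℂ) : fderiv ℝ rho p v =
    ‖p 1‖ ^ 2 * (G (p 0) * (2 * fderiv ℝ Phi (p 0) (v 0))) + G (p 0) * (2 * ⟪p 1, v 1⟫_ℝ) +
      2 * q (‖p 0‖ ^ 2) * ⟪p 0, v 0⟫_ℝ := by
  have h1 : HasFDerivAt (fun x => Nn (pr 1 x) * G (pr 0 x) + (psi (pr 0 x) + (-psi 0 - 1))) _ p :=
    ((cd_diff N1_contDiff p).hasFDerivAt.mul (cd_diff G0_contDiff p).hasFDerivAt).add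
      ((cd_diff psi0_contDiff p).hasFDerivAt.add_const _)
  have h2 : fderiv ℝ rho p = _ := h1.fderiv
  rw [h2]
  simp only [add_apply, smul_apply, smul_eq_mul]
  rw [fderiv_clm Nn_contDiff, fderiv_clm G_contDiff, fderiv_clm psi_contDiff, G_fderiv,
    Nn_fderiv, psi_fderiv]
  simp only [pr_apply, smul_apply, innerSL_apply_apply, smul_eq_mul]
  unfold Nn
  ring

lemma rho_grad (p : Fin 2 → ℂ) (hp : rho p = 0) : fderiv ℝ rho p ≠ 0 := by
  intro h
  by_cases h1 : p 1 = 0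
  · have h2 := congrArg (fun L => L ![p 0, 0]) h
    simp only [rho_fderiv, h1] at h2
    simp only [norm_zero, Matrix.cons_val_zero, Matrix.cons_val_one, zero_apply] at h2
    rw [rho_apply, h1] at hp
    simp only [norm_zero] at hp
    have h3 : ¬ (‖p 0‖ ^ 2 ≤ 1/2) := by
      intro h4
      rw [psi_flat h4] at hp
      norm_num at hp
      linarith
    push Not at h3
    have h5 := mul_q (‖p 0‖ ^ 2)
    have h6 := T_pos h3
    rw [real_inner_self_eq_norm_sq] at h2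
    simp at h2
    rcases h2 with h2 | h2
    · rw [h2] at h5; linarith
    · rw [h2] at h3; norm_num at h3
  · have h2 := congrArg (fun L => L ![0, p 1]) h
    simp only [rho_fderiv] at h2
    simp only [Matrix.cons_val_zero, Matrix.cons_val_one, zero_apply] at h2
    rw [real_inner_self_eq_norm_sq] at h2
    simp at h2
    have := G_pos (p 0)
    rcases h2 with h2 | h2
    · linarith
    · exact h1 h2

lemma dom_fst {x : Fin 2 → ℂ} (hx : rho x < 0) : ‖x 0‖ < Real.exp 1 := by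
  rw [rho_apply] at hx
  by_contra h
  push Not at h
  have h0 : (1:ℝ) ≤ Real.exp 1 := Real.one_le_exp (by norm_num)
  rw [psi_log (h0.trans h)] at hx
  have h1 : 1 ≤ Real.log ‖x 0‖ := by
    rw [← Real.log_exp 1]; exact Real.log_le_log (by positivity) h
  have h2 : psi 0 ≤ 0 := psi_nonpos (by simp)
  have h3 : 0 ≤ ‖x 1‖ ^ 2 * Real.exp (2 * Phi (x 0)) := by positivity
  linarith

lemma dom_bdd : Bornology.IsBounded {x : Fin 2 → ℂ | rho x < 0} := by
  obtain ⟨C, hC⟩ := (isCompact_closedBall (0:ℂ) (Real.exp 1)).exists_bound_of_continuousOn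
    (f := fun z => Real.exp (-(2 * Phi z)))
    (by
      apply Continuous.continuousOn
      exact Real.continuous_exp.comp twoPhi_contDiff.continuous.neg)
  rw [isBounded_iff_forall_norm_le]
  refine ⟨max (Real.exp 1) (C + 1), fun x hx => ?_⟩
  have h0 := dom_fst hx
  have hC0 := hC (x 0) (by simpa using h0.le)
  rw [Real.norm_eq_abs, abs_of_pos (Real.exp_pos _)] at hC0
  have hC00 : 0 ≤ C := le_trans (Real.exp_pos _).le hC0
  rw [pi_norm_le_iff_of_nonneg (by positivity)]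
  intro j
  fin_cases j
  · exact le_max_of_le_left h0.le
  · refine le_max_of_le_right ?_
    show ‖x 1‖ ≤ C + 1
    simp only [mem_ofPred_eq, rho_apply] at hx
    have h1 : psi 0 ≤ psi (x 0) := psi_mono (by simp)
    have h2 : ‖x 1‖ ^ 2 * Real.exp (2 * Phi (x 0)) < 1 := by linarith
    have h3 : ‖x 1‖ ^ 2 ≤ C := by
      have : ‖x 1‖ ^ 2 = ‖x 1‖ ^ 2 * Real.exp (2 * Phi (x 0)) * Real.exp (-(2 * Phi (x 0))) := by
        rw [mul_assoc, ← Real.exp_add]; simp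
      rw [this]
      have h4 := Real.exp_pos (-(2 * Phi (x 0)))
      nlinarith
    nlinarith [norm_nonneg (x 1)]

lemma dom_zero : rho 0 < 0 := by
  rw [rho_apply]; simp; linarith

lemma dom_conn : IsConnected {x : Fin 2 → ℂ | rho x < 0} := by
  refine ⟨⟨0, dom_zero⟩, ?_⟩
  apply isPreconnected_of_forall (0 : Fin 2 → ℂ)
  intro x hx
  have hx' : rho x < 0 := hx
  refine ⟨segment ℝ x ![x 0, 0] ∪ segment ℝ ![x 0, 0] 0, ?_, ?_, ?_, ?_⟩
  · rintro y (⟨α, β, hα, hβ, hαβ, rfl⟩ | ⟨α, β, hα, hβ, hαβ, rfl⟩)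
    · simp only [mem_ofPred_eq, rho_apply] at hx' ⊢
      have e0 : (α • x + β • ![x 0, 0]) 0 = x 0 := by
        simp only [Pi.add_apply, Pi.smul_apply, Matrix.cons_val_zero]
        rw [← add_smul, hαβ, one_smul]
      have e1 : (α • x + β • ![x 0, 0]) 1 = α • x 1 := by
        simp
      rw [e0, e1, norm_smul, Real.norm_eq_abs, abs_of_nonneg hα]
      have h1 : (α * ‖x 1‖) ^ 2 ≤ ‖x 1‖ ^ 2 := by
        have : α ≤ 1 := by linarith
        have h2 : α * ‖x 1‖ ≤ ‖x 1‖ := by nlinarith [norm_nonneg (x 1)]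
        gcongr
      have h3 := Real.exp_pos (2 * Phi (x 0))
      nlinarith
    · simp only [mem_ofPred_eq, rho_apply] at hx' ⊢
      have e0 : (α • ![x 0, 0] + β • (0 : Fin 2 → ℂ)) 0 = α • x 0 := by
        simp
      have e1 : (α • ![x 0, 0] + β • (0 : Fin 2 → ℂ)) 1 = 0 := by
        simp
      rw [e0, e1]
      have h1 : psi (α • x 0) ≤ psi (x 0) := by
        apply psi_mono
        rw [norm_smul, Real.norm_eq_abs, abs_of_nonneg hα]
        have : α ≤ 1 := by linarith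
        nlinarith [norm_nonneg (x 0)]
      have h3 : 0 ≤ ‖x 1‖ ^ 2 * Real.exp (2 * Phi (x 0)) := by positivity
      simp only [norm_zero]
      linarith
  · right; exact right_mem_segment _ _ _
  · left; exact left_mem_segment _ _ _
  · apply IsPreconnected.union ![x 0, 0]
    · exact right_mem_segment _ _ _
    · exact left_mem_segment _ _ _
    · exact (convex_segment _ _).isPreconnected
    · exact (convex_segment _ _).isPreconnected

/-- membership near the centre -/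
lemma mem_dom {z w : ℂ} (hz : ‖z‖ ^ 2 ≤ 1/2) (hw : ‖w‖ < Real.exp (-Phi z)) :
    rho ![z, w] < 0 := by
  rw [rho_apply]
  simp only [Matrix.cons_val_zero, Matrix.cons_val_one]
  rw [psi_flat hz]
  have h1 : ‖w‖ ^ 2 < Real.exp (-Phi z) ^ 2 := by
    have := norm_nonneg w
    gcongr
  have h2 : Real.exp (-Phi z) ^ 2 * Real.exp (2 * Phi z) = 1 := by
    rw [← Real.exp_nat_mul, ← Real.exp_add]
    push_cast
    ring_nf
    exact Real.exp_zero
  have h3 := Real.exp_pos (2 * Phi z)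
  nlinarith

end Pool.Agent.Helper12.CC
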