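import Pool.Agent.Helper12.CC.Phi

set_option autoImplicit false
open scoped ContDiff InnerProductSpace
open Set Filter Topology

namespace Pool.Agent.Helper12.CC

lemma t_add (i q : ℕ) : t i = 16 ^ q * t (i + q) := by
  unfold t
  rw [show i + q + 1 = (i + 1) + q by ring, pow_add ((1:ℝ)/16) (i + 1) q, mul_comm, mul_assoc,
    ← mul_pow]
  norm_num

lemma t_lt {i j : ℕ} (h : j < i) : 8 * t i ≤ t j / 2 := by
  obtain ⟨q, rfl⟩ := Nat.exists_eq_add_of_lt h
  have h1 := t_add j (q + 1)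
  have h2 := t_pos (j + q + 1)
  rw [show j + (q + 1) = j + q + 1 by ring] at h1
  have h3 : (1:ℝ) ≤ 16 ^ q := one_le_pow₀ (by norm_num)
  rw [h1, pow_succ]
  nlinarith

lemma t_le {i q : ℕ} : t (i + q) ≤ t i := by
  rw [t_add i q]
  have h3 : (1:ℝ) ≤ 16 ^ q := one_le_pow₀ (by norm_num)
  have h2 := t_pos (i + q)
  nlinarith

lemma ts (i : ℕ) : t i = s i * Real.exp (32 * (i + 1)) := by
  unfold s
  rw [mul_assoc, ← Real.exp_add]
  simp

lemma log16 : Real.log 16 ≤ 3 := by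
  have : (16:ℝ) = 2 ^ 4 := by norm_num
  rw [this, Real.log_pow]
  have := Real.log_two_lt_d9
  push_cast
  linarith

lemma B_le {i q k : ℕ} {z : ℂ} (hz : ‖z‖ ≤ 8 * t i) :
    B (s (i + q)) (a (i + q) k) z ≤ ((q:ℝ) + 1) * 3 + 32 * (((i + q : ℕ) : ℝ) + 1) := by
  unfold B
  have hs := s_pos (i + q)
  have ht := t_pos (i + q)
  have h1 : ‖(s (i + q))⁻¹ • (z - a (i + q) k)‖ ≤
      16 ^ (q + 1) * Real.exp (32 * (((i + q : ℕ) : ℝ) + 1)) := by
    rw [norm_smul, Real.norm_eq_abs, abs_of_pos (by positivity), inv_mul_le_iff₀ hs]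
    have h2 : ‖z - a (i + q) k‖ ≤ 8 * t i + t (i + q) := by
      refine (norm_sub_le _ _).trans ?_
      rw [norm_a]; linarith
    have h3 : t (i + q) ≤ t i := t_le
    have h4 := t_add i q
    have h5 := ts (i + q)
    have h6 : 16 * t i = s (i + q) * (16 ^ (q + 1) * Real.exp (32 * (((i + q : ℕ) : ℝ) + 1))) := by
      rw [h4, h5, pow_succ]; ring
    rw [← h6]
    have := t_pos i
    linarith
  have h7 : (1:ℝ) ≤ 16 ^ (q + 1) * Real.exp (32 * (((i + q : ℕ) : ℝ) + 1)) := by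
    have h8 : (1:ℝ) ≤ 16 ^ (q + 1) := one_le_pow₀ (by norm_num)
    have h9 : (1:ℝ) ≤ Real.exp (32 * (((i + q : ℕ) : ℝ) + 1)) := Real.one_le_exp (by positivity)
    nlinarith
  refine (psi_le h7 h1).trans ?_
  rw [Real.log_mul (by positivity) (by positivity), Real.log_exp, Real.log_pow]
  push_cast
  have := log16
  have : ((q:ℝ) + 1) * Real.log 16 ≤ ((q:ℝ) + 1) * 3 := by
    apply mul_le_mul_of_nonneg_left this (by positivity)
  linarith

lemma geo (q : ℕ) : ((q:ℝ) + 1) * (1/4) ^ q ≤ (1/2) ^ q := by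
  have h1 : ((q:ℝ) + 1) ≤ 2 ^ q := by
    have : q < 2 ^ q := Nat.lt_two_pow_self
    have : q + 1 ≤ 2 ^ q := this
    exact_mod_cast this
  have h2 : ((1:ℝ)/2) ^ q = 2 ^ q * (1/4) ^ q := by
    rw [← mul_pow]; norm_num
  rw [h2]
  apply mul_le_mul_of_nonneg_right h1 (by positivity)

lemma Ph_le_aux (l : ℕ) {z : ℂ} {c : ℝ} (h : ∀ k ∈ Finset.range (K l), B (s l) (a l k) z ≤
    c + 32 * ((l:ℝ) + 1)) : Ph l z ≤ d (l + 1) / 8 * c := by
  unfold Ph
  rw [← mu_K, mul_assoc]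
  apply mul_le_mul_of_nonneg_left _ (mu_pos l).le
  calc ∑ k ∈ Finset.range (K l), (B (s l) (a l k) z + (-(32 * ((l:ℝ) + 1))))
      ≤ ∑ k ∈ Finset.range (K l), c := Finset.sum_le_sum fun k hk => by linarith [h k hk]
    _ = K l * c := by simp

lemma Ph_le {i q : ℕ} {z : ℂ} (hz : ‖z‖ ≤ 8 * t i) :
    Ph (i + q) z ≤ 3 / 8 * d (i + 1) * (1/2) ^ q := by
  have h1 := Ph_le_aux (i + q) (z := z) (c := ((q:ℝ) + 1) * 3) (fun k _ => B_le hz)
  have h2 := d_le (i + 1) q
  rw [show i + 1 + q = i + q + 1 by ring] at h2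
  have h3 := geo q
  have h4 := d_pos (i + 1)
  calc Ph (i + q) z ≤ d (i + q + 1) / 8 * (((q:ℝ) + 1) * 3) := h1
    _ ≤ (d (i + 1) * (1/4) ^ q) / 8 * (((q:ℝ) + 1) * 3) := by gcongr
    _ = 3 / 8 * d (i + 1) * (((q:ℝ) + 1) * (1/4) ^ q) := by ring
    _ ≤ 3 / 8 * d (i + 1) * (1/2) ^ q := by gcongr

lemma Ph_at (i k : ℕ) (hk : k < K i) :
    Ph i (a i k) ≤ 3 / 8 * d (i + 1) - 32 * ((i:ℝ) + 1) * mu i := by
  unfold Ph
  have h1 : ∀ k' ∈ Finset.range (K i), B (s i) (a i k') (a i k) + (-(32 * ((i:ℝ) + 1))) ≤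
      3 + (if k' = k then -(32 * ((i:ℝ) + 1)) else 0) := by
    intro k' _
    by_cases h : k' = k
    · subst h
      simp only [if_true]
      have : B (s i) (a i k') (a i k') ≤ 0 := by
        unfold B; apply psi_nonpos; simp
      linarith
    · rw [if_neg h]
      have := B_le (i := i) (q := 0) (k := k') (z := a i k) (by rw [norm_a]; linarith [t_pos i])
      simp only [add_zero, Nat.cast_zero, zero_add, one_mul] at this
      linarith
  have h2 := Finset.sum_le_sum h1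
  have h5 : ∑ k' ∈ Finset.range (K i), ((3:ℝ) + (if k' = k then -(32 * ((i:ℝ) + 1)) else 0)) =
      K i * 3 - 32 * ((i:ℝ) + 1) := by
    rw [Finset.sum_add_distrib]
    simp only [Finset.sum_const, Finset.card_range, nsmul_eq_mul, Finset.sum_ite_eq',
      Finset.mem_range, hk, if_true]
    ring
  rw [h5] at h2
  have h3 := mul_le_mul_of_nonneg_left h2 (mu_pos i).le
  have h4 := mu_K i
  have h6 : mu i * (K i * 3 - 32 * ((i:ℝ) + 1)) = (mu i * K i) * 3 - 32 * ((i:ℝ) + 1) * mu i := by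
    ring
  rw [h6, h4] at h3
  linarith

/-- tail of the sum -/
noncomputable def u (i : ℕ) (z : ℂ) : ℝ := ∑' q, Ph (i + q) z

lemma Ph_summable_tail (i : ℕ) (z : ℂ) : Summable (fun q => Ph (i + q) z) := by
  have := (summable_nat_add_iff i).mpr (Ph_summable z)
  simpa only [add_comm] using this

lemma geo_hasSum (c : ℝ) : HasSum (fun q : ℕ => c * (1/2) ^ q) (c * 2) :=
  hasSum_geometric_two.mul_left c

lemma u_le {i : ℕ} {z : ℂ} (hz : ‖z‖ ≤ 8 * t i) : u i z ≤ d (i + 1) := by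
  have h1 : u i z ≤ 3 / 8 * d (i + 1) * 2 :=
    hasSum_le (fun q => Ph_le hz) (Ph_summable_tail i z).hasSum (geo_hasSum _)
  have := d_pos (i + 1)
  linarith

lemma u_at (i k : ℕ) (hk : k < K i) : u i (a i k) ≤ d (i + 1) - 32 * ((i:ℝ) + 1) * mu i := by
  have h2 : HasSum (fun q : ℕ => 3 / 8 * d (i + 1) * (1/2) ^ q +
      if q = 0 then - (32 * ((i:ℝ) + 1) * mu i) else 0)
      (3 / 8 * d (i + 1) * 2 + - (32 * ((i:ℝ) + 1) * mu i)) :=
    (geo_hasSum _).add (hasSum_ite_eq 0 _)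
  have h1 : u i (a i k) ≤ 3 / 8 * d (i + 1) * 2 + - (32 * ((i:ℝ) + 1) * mu i) := by
    refine hasSum_le (fun q => ?_) (Ph_summable_tail i _).hasSum h2
    by_cases hq : q = 0
    · subst hq
      simp only [add_zero, pow_zero, mul_one, if_true]
      have := Ph_at i k hk
      linarith
    · rw [if_neg hq, add_zero]
      exact Ph_le (by rw [norm_a]; linarith [t_pos i])
  have := d_pos (i + 1)
  linarith

/-- the depth at the poles -/
noncomputable def De (i : ℕ) : ℝ := 2 * d (i + 1) * (i + 1) / K i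

lemma De_pos (i : ℕ) : 0 < De i := by
  have := d_pos (i + 1); have := K_pos' i
  unfold De; positivity

lemma u_at' (i k : ℕ) (hk : k < K i) : u i (a i k) ≤ - De i := by
  refine (u_at i k hk).trans ?_
  have hK := K_pos' i
  have h1 := K_le i
  have h2 := d_pos (i + 1)
  have h3 : 32 * ((i:ℝ) + 1) * mu i = 2 * De i := by
    unfold mu De; field_simp; norm_num
  have h4 : d (i + 1) ≤ De i := by
    unfold De
    rw [le_div_iff₀ hK]
    nlinarith
  linarith

/-! ### The holomorphic part -/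

noncomputable def H (i : ℕ) (z : ℂ) : ℂ :=
  ∑ j ∈ Finset.range i, (mu j : ℂ) * ∑ k ∈ Finset.range (K j), Complex.log (1 - z / a j k)

lemma H_zero (i : ℕ) : H i 0 = 0 := by simp [H]

lemma norm_div_a {i j k : ℕ} (hj : j < i) {z : ℂ} (hz : ‖z‖ < 8 * t i) : ‖z / a j k‖ < 1/2 := by
  have h1 := t_lt hj
  have h2 := t_pos j
  rw [norm_div, norm_a, div_lt_iff₀ h2]
  linarith

lemma slit {i j k : ℕ} (hj : j < i) {z : ℂ} (hz : ‖z‖ < 8 * t i) :
    1 - z / a j k ∈ Complex.slitPlane := by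
  left
  have h1 := norm_div_a (k := k) hj hz
  have h2 := Complex.abs_re_le_norm (z / a j k)
  have h3 := le_abs_self (z / a j k).re
  simp only [Complex.sub_re, Complex.one_re]
  linarith

lemma H_diff (i : ℕ) : DifferentiableOn ℂ (H i) (Metric.ball 0 (8 * t i)) := by
  unfold H
  apply DifferentiableOn.fun_sum
  intro j hj
  apply DifferentiableOn.const_mul
  apply DifferentiableOn.fun_sum
  intro k _
  apply DifferentiableOn.clog
  · exact (differentiableOn_const _).sub (differentiableOn_id.div_const _)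
  · intro z hz
    exact slit (Finset.mem_range.mp hj) (by simpa using hz)

lemma s_le (j : ℕ) : s j ≤ t j / 2 := by
  have h := ts j
  have h1 := s_pos j
  have h2 : (2:ℝ) ≤ Real.exp (32 * (j + 1)) := by
    have h3 : 32 * ((j:ℝ) + 1) + 1 ≤ Real.exp (32 * (j + 1)) := Real.add_one_le_exp _
    have : (0:ℝ) ≤ j := Nat.cast_nonneg j
    linarith
  rw [h]
  nlinarith

lemma B_eq {i j k : ℕ} (hj : j < i) {z : ℂ} (hz : ‖z‖ < 8 * t i) :
    B (s j) (a j k) z = (Complex.log (1 - z / a j k)).re + 32 * ((j:ℝ) + 1) := by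
  rw [Complex.log_re]
  have hs := s_pos j
  have ht := t_pos j
  have hp : 1 - z / a j k ≠ 0 := Complex.slitPlane_ne_zero (slit hj hz)
  have ha : a j k ≠ 0 := by
    intro h; have := norm_a j k; rw [h] at this; simp at this; linarith
  have h0 : ‖z - a j k‖ = t j * ‖1 - z / a j k‖ := by
    rw [← norm_a j k, ← norm_mul]
    have : a j k * (1 - z / a j k) = a j k - z := by field_simp
    rw [this, norm_sub_rev]
  have h1 : ‖(s j)⁻¹ • (z - a j k)‖ = ‖1 - z / a j k‖ * Real.exp (32 * (j + 1)) := by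
    rw [norm_smul, Real.norm_eq_abs, abs_of_pos (by positivity), h0]
    have h9 := ts j
    rw [inv_mul_eq_iff_eq_mul₀ hs.ne', h9]
    ring
  have h2 : t j / 2 ≤ ‖z - a j k‖ := by
    have h3 : ‖a j k‖ - ‖z‖ ≤ ‖a j k - z‖ := norm_sub_norm_le _ _
    rw [norm_a, norm_sub_rev] at h3
    have := t_lt hj
    linarith
  have h4 : 1 ≤ ‖(s j)⁻¹ • (z - a j k)‖ := by
    rw [norm_smul, Real.norm_eq_abs, abs_of_pos (by positivity), le_inv_mul_iff₀ hs, mul_one]
    exact (s_le j).trans h2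
  unfold B
  rw [psi_log h4, h1, Real.log_mul (by simpa using hp) (by positivity), Real.log_exp]

lemma H_re {i : ℕ} {z : ℂ} (hz : ‖z‖ < 8 * t i) :
    (H i z).re = ∑ j ∈ Finset.range i, Ph j z := by
  unfold H
  rw [Complex.re_sum]
  apply Finset.sum_congr rfl
  intro j hj
  rw [Complex.re_ofReal_mul, Complex.re_sum]
  unfold Ph
  congr 1
  apply Finset.sum_congr rfl
  intro k _
  rw [B_eq (Finset.mem_range.mp hj) hz]
  ring

lemma Phi_eq {i : ℕ} {z : ℂ} (hz : ‖z‖ < 8 * t i) : Phi z = (H i z).re + u i z := by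
  rw [H_re hz]
  unfold Phi u
  rw [← (Ph_summable z).sum_add_tsum_nat_add i]
  simp only [add_comm i]

end Pool.Agent.Helper12.CC
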