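import Pool.Agent.Helper12.CC.Cau

set_option autoImplicit false
open scoped ContDiff InnerProductSpace
open Set Filter Topology

namespace Pool.Agent.Helper12.CC

lemma xn_mem (j : ℕ) : rho (xn j) < 0 := by
  unfold xn
  apply mem_dom (by norm_num)
  rw [Phi_zero]; simpa using wn_norm j

/-- pseudo-hyperbolic quotient -/
noncomputable def pq (a b : ℂ) : ℂ := (a - b) / (1 - (starRingEnd ℂ) a * b)

lemma den_ne {a b : ℂ} (ha : ‖a‖ < 1) (hb : ‖b‖ < 1) : 1 - (starRingEnd ℂ) a * b ≠ 0 := by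
  intro h
  have h1 : (starRingEnd ℂ) a * b = 1 := by linear_combination -h
  have h2 : ‖(starRingEnd ℂ) a * b‖ = 1 := by rw [h1]; simp
  rw [norm_mul, RCLike.norm_conj] at h2
  nlinarith [norm_nonneg a, norm_nonneg b]

lemma pq_symm_norm (a b : ℂ) : ‖pq a b‖ = ‖(a - b) / (1 - (starRingEnd ℂ) b * a)‖ := by
  unfold pq
  rw [norm_div, norm_div]
  congr 1
  rw [← RCLike.norm_conj]
  simp [mul_comm]

lemma pq_lt_one {a b : ℂ} (ha : ‖a‖ < 1) (hb : ‖b‖ < 1) : ‖pq a b‖ < 1 := by
  unfold pq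
  have h0 := den_ne ha hb
  rw [norm_div, div_lt_one (norm_pos_iff.mpr h0)]
  have h1 : ‖a - b‖ ^ 2 < ‖1 - (starRingEnd ℂ) a * b‖ ^ 2 := by
    rw [← Complex.normSq_eq_norm_sq, ← Complex.normSq_eq_norm_sq]
    have h2 : Complex.normSq a < 1 := by
      rw [Complex.normSq_eq_norm_sq]; nlinarith [norm_nonneg a]
    have h3 : Complex.normSq b < 1 := by
      rw [Complex.normSq_eq_norm_sq]; nlinarith [norm_nonneg b]
    have h4 : Complex.normSq (1 - (starRingEnd ℂ) a * b) - Complex.normSq (a - b) =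
        (1 - Complex.normSq a) * (1 - Complex.normSq b) := by
      simp only [Complex.normSq_apply, Complex.sub_re, Complex.sub_im, Complex.mul_re,
        Complex.mul_im, Complex.conj_re, Complex.conj_im, Complex.one_re, Complex.one_im]
      ring
    nlinarith
  exact lt_of_pow_lt_pow_left₀ 2 (norm_nonneg _) h1

lemma cauchy_log : ∀ ε : ℝ, ε > 0 → ∃ N : ℕ, ∀ j ≥ N, ∀ k ≥ N, ∀ f : (Fin 2 → ℂ) → ℂ,
    DifferentiableOn ℂ f {z : Fin 2 → ℂ | rho z < 0} →
    (∀ z : Fin 2 → ℂ, rho z < 0 → ‖f z‖ < 1) →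
    Real.log ((1 + ‖(f (xn j) - f (xn k)) / (1 - (starRingEnd ℂ) (f (xn j)) * f (xn k))‖)
      / (1 - ‖(f (xn j) - f (xn k)) / (1 - (starRingEnd ℂ) (f (xn j)) * f (xn k))‖)) ≤ ε := by
  intro ε hε
  set η : ℝ := (Real.exp ε - 1) / (Real.exp ε + 1) with hη
  have he : 1 < Real.exp ε := Real.one_lt_exp_iff.mpr hε
  have hη0 : 0 < η := by rw [hη]; apply div_pos <;> linarith
  have hη1 : η < 1 := by rw [hη, div_lt_one (by linarith)]; linarith
  obtain ⟨N, hN⟩ := unif_cauchy hη0
  refine ⟨N, fun j hj k hk f hf hb => ?_⟩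
  set c := f (xn k) with hc
  have hc1 : ‖c‖ < 1 := hb _ (xn_mem k)
  have hj1 : ‖f (xn j)‖ < 1 := hb _ (xn_mem j)
  have hden : ∀ z ∈ Om, 1 - (starRingEnd ℂ) c * f z ≠ 0 := fun z hz => den_ne hc1 (hb z hz)
  have hg : Comp (fun z => (f z - c) / (1 - (starRingEnd ℂ) c * f z)) := by
    refine ⟨?_, ?_⟩
    · have h1 : DifferentiableOn ℂ (fun z => 1 - (starRingEnd ℂ) c * f z) Om :=
        (differentiableOn_const _).sub (hf.const_mul _)
      have h2 : DifferentiableOn ℂ (fun z => (1 - (starRingEnd ℂ) c * f z)⁻¹) Om := by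
        intro z hz
        exact (hasDerivAt_inv (hden z hz)).differentiableAt.comp_differentiableWithinAt z (h1 z hz)
      have h3 : DifferentiableOn ℂ (fun z => f z - c) Om := hf.sub_const _
      simp only [div_eq_mul_inv]
      exact h3.mul h2
    · intro z hz
      have h1 := pq_lt_one (hb z hz) hc1
      rw [pq_symm_norm] at h1
      exact h1.le
  have h1 := hN j hj k hk _ hg
  simp only [← hc, sub_self, zero_div, sub_zero] at h1
  rw [← pq_symm_norm] at h1
  change Real.log ((1 + ‖pq (f (xn j)) c‖) / (1 - ‖pq (f (xn j)) c‖)) ≤ ε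
  have h2 := pq_lt_one hj1 hc1
  have h0 := norm_nonneg (pq (f (xn j)) c)
  set p := ‖pq (f (xn j)) c‖
  rw [Real.log_le_iff_le_exp (by apply div_pos <;> linarith), div_le_iff₀ (by linarith)]
  rw [hη, le_div_iff₀ (by linarith)] at h1
  nlinarith

lemma not_conv (y : Fin 2 → ℂ) (hy : rho y < 0)
    (hconv : ∀ ε : ℝ, ε > 0 → ∃ N : ℕ, ∀ j ≥ N, ∀ f : (Fin 2 → ℂ) → ℂ,
      DifferentiableOn ℂ f {z : Fin 2 → ℂ | rho z < 0} →
      (∀ z : Fin 2 → ℂ, rho z < 0 → ‖f z‖ < 1) →
      Real.log ((1 + ‖(f (xn j) - f y) / (1 - (starRingEnd ℂ) (f (xn j)) * f y)‖)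
        / (1 - ‖(f (xn j) - f y) / (1 - (starRingEnd ℂ) (f (xn j)) * f y)‖)) ≤ ε) : False := by
  obtain ⟨C, hC⟩ := isBounded_iff_forall_norm_le.mp dom_bdd
  set R : ℝ := max C 0 + 1 with hR
  have hR0 : 0 < R := by
    have := le_max_right C 0; linarith
  have hCR : C < R := by have := le_max_left C 0; linarith
  -- convergence in every coordinate
  have key : ∀ m : Fin 2, Tendsto (fun j => xn j m) atTop (𝓝 (y m)) := by
    intro m
    rw [Metric.tendsto_atTop]
    intro δ hδ
    set η : ℝ := min (δ / (4 * R)) (1/2) with hη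
    have hη0 : 0 < η := by rw [hη]; positivity
    have hη1 : η < 1 := by
      have := min_le_right (δ / (4 * R)) (1/2); linarith
    obtain ⟨N, hN⟩ := hconv (Real.log ((1 + η) / (1 - η)))
      (Real.log_pos (by rw [one_lt_div (by linarith)]; linarith))
    refine ⟨N, fun j hj => ?_⟩
    let f : (Fin 2 → ℂ) → ℂ := fun x => x m / (R:ℂ)
    have hfd : DifferentiableOn ℂ f {z : Fin 2 → ℂ | rho z < 0} := by
      apply Differentiable.differentiableOn
      simp only [f, div_eq_mul_inv]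
      exact (differentiable_apply m).mul_const _
    have hfb : ∀ z : Fin 2 → ℂ, rho z < 0 → ‖f z‖ < 1 := by
      intro z hz
      have h1 := hC z hz
      have h2 := norm_le_pi_norm z m
      simp only [f, norm_div, Complex.norm_real, Real.norm_eq_abs, abs_of_pos hR0]
      rw [div_lt_one hR0]; linarith
    have h1 := hN j hj f hfd hfb
    change Real.log ((1 + ‖pq (f (xn j)) (f y)‖) / (1 - ‖pq (f (xn j)) (f y)‖)) ≤ _ at h1
    have ha := hfb _ (xn_mem j)
    have hb := hfb y hy
    have h2 := pq_lt_one ha hb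
    have h0 := norm_nonneg (pq (f (xn j)) (f y))
    have h3 : ‖f (xn j) - f y‖ ≤ 2 * ‖pq (f (xn j)) (f y)‖ := by
      have h4 := den_ne ha hb
      have h5 : f (xn j) - f y = pq (f (xn j)) (f y) * (1 - (starRingEnd ℂ) (f (xn j)) * f y) := by
        unfold pq; exact (div_mul_cancel₀ _ h4).symm
      have h6 : ‖1 - (starRingEnd ℂ) (f (xn j)) * f y‖ ≤ 2 := by
        refine (norm_sub_le _ _).trans ?_
        rw [norm_mul, RCLike.norm_conj, norm_one]
        nlinarith [norm_nonneg (f (xn j)), norm_nonneg (f y)]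
      rw [h5, norm_mul, mul_comm]
      exact mul_le_mul_of_nonneg_right h6 h0
    set p := ‖pq (f (xn j)) (f y)‖
    have h7 : p ≤ η := by
      rw [Real.log_le_log_iff (by apply div_pos <;> linarith) (by apply div_pos <;> linarith),
        div_le_div_iff₀ (by linarith) (by linarith)] at h1
      nlinarith
    have h8 : f (xn j) - f y = (xn j m - y m) / (R:ℂ) := by simp only [f]; ring
    rw [h8, norm_div, Complex.norm_real, Real.norm_eq_abs, abs_of_pos hR0, div_le_iff₀ hR0] at h3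
    rw [dist_eq_norm]
    have h9 : η ≤ δ / (4 * R) := min_le_left _ _
    have h10 : η * R ≤ δ / 4 := by
      have : η * R ≤ δ / (4 * R) * R := mul_le_mul_of_nonneg_right h9 hR0.le
      calc _ ≤ _ := this
        _ = _ := by field_simp
    nlinarith
  have h0 : y 0 = 0 := by
    have h1 := key 0
    have h2 : Tendsto (fun j => xn j 0) atTop (𝓝 0) := by
      have : (fun j => xn j 0) = fun _ => (0:ℂ) := by ext j; simp [xn]
      rw [this]; exact tendsto_const_nhds
    exact tendsto_nhds_unique h1 h2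
  have h1 : y 1 = 1 := by
    have h1 := key 1
    have h2 : Tendsto (fun j => xn j 1) atTop (𝓝 1) := by
      have : (fun j => xn j 1) = wn := by ext j; simp [xn]
      rw [this]; exact wn_tendsto
    exact tendsto_nhds_unique h1 h2
  rw [rho_apply, h0, h1, Phi_zero] at hy
  simp at hy
  linarith

end Pool.Agent.Helper12.CC
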