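import Pool.Agent.Helper12.CC.Psi

set_option autoImplicit false
open scoped ContDiff InnerProductSpace
open Set Filter Topology

namespace Pool.Agent.Helper12.CC

variable {E F : Type*} [NormedAddCommGroup E] [NormedSpace ℝ E]
  [NormedAddCommGroup F] [NormedSpace ℝ F]

/-- second derivative -/
noncomputable def D2 (u : E → ℝ) (p v : E) : ℝ := fderiv ℝ (fderiv ℝ u) p v v

lemma cd_diff {u : E → ℝ} (hu : ContDiff ℝ ∞ u) : Differentiable ℝ u :=
  hu.differentiable (by simp)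

lemma cd_diff2 {u : E → ℝ} (hu : ContDiff ℝ ∞ u) : Differentiable ℝ (fderiv ℝ u) :=
  (contDiff_infty_iff_fderiv.mp hu).2.differentiable (by simp)

lemma D2_add {u v : E → ℝ} (hu : ContDiff ℝ ∞ u) (hv : ContDiff ℝ ∞ v) (p w : E) :
    D2 (fun x => u x + v x) p w = D2 u p w + D2 v p w := by
  unfold D2
  have h1 : fderiv ℝ (fun x => u x + v x) = fun x => fderiv ℝ u x + fderiv ℝ v x := by
    ext1 x
    exact fderiv_fun_add (cd_diff hu x) (cd_diff hv x)
  rw [h1, fderiv_fun_add (cd_diff2 hu p) (cd_diff2 hv p)]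
  rfl

lemma D2_add_const {u : E → ℝ} (c : ℝ) (p w : E) :
    D2 (fun x => u x + c) p w = D2 u p w := by
  unfold D2
  have h1 : fderiv ℝ (fun x => u x + c) = fderiv ℝ u := by
    ext1 x
    exact fderiv_add_const c
  rw [h1]

lemma D2_const_mul {u : E → ℝ} (hu : ContDiff ℝ ∞ u) (c : ℝ) (p w : E) :
    D2 (fun x => c * u x) p w = c * D2 u p w := by
  unfold D2
  have h1 : fderiv ℝ (fun x => c * u x) = fun x => c • fderiv ℝ u x := by
    ext1 x
    exact fderiv_const_mul (cd_diff hu x) c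
  rw [h1, fderiv_fun_const_smul (cd_diff2 hu p)]
  rfl

lemma D2_sum {ι : Type*} (S : Finset ι) {u : ι → E → ℝ} (hu : ∀ i ∈ S, ContDiff ℝ ∞ (u i))
    (p w : E) :
    D2 (fun x => ∑ i ∈ S, u i x) p w = ∑ i ∈ S, D2 (u i) p w := by
  classical
  induction S using Finset.induction_on with
  | empty =>
    simp only [Finset.sum_empty]
    have := D2_add_const (u := fun _ : E => (0:ℝ)) 0 p w
    unfold D2
    simp
  | insert a S ha ih =>
    simp only [Finset.sum_insert ha]
    rw [D2_add (hu a (Finset.mem_insert_self _ _))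
      (ContDiff.sum fun i hi => hu i (Finset.mem_insert_of_mem hi)),
      ih (fun i hi => hu i (Finset.mem_insert_of_mem hi))]

lemma D2_mul {u v : E → ℝ} (hu : ContDiff ℝ ∞ u) (hv : ContDiff ℝ ∞ v) (p w : E) :
    D2 (fun x => u x * v x) p w =
      u p * D2 v p w + 2 * (fderiv ℝ u p w * fderiv ℝ v p w) + v p * D2 u p w := by
  unfold D2
  have h1 : fderiv ℝ (fun x => u x * v x) = fun x => u x • fderiv ℝ v x + v x • fderiv ℝ u x := by
    ext1 x
    exact fderiv_fun_mul (cd_diff hu x) (cd_diff hv x)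
  have h2 : HasFDerivAt (fun x => u x • fderiv ℝ v x + v x • fderiv ℝ u x) _ p :=
    ((cd_diff hu p).hasFDerivAt.smul (cd_diff2 hv p).hasFDerivAt).add
      ((cd_diff hv p).hasFDerivAt.smul (cd_diff2 hu p).hasFDerivAt)
  rw [h1, h2.fderiv]
  simp only [add_apply, smul_apply, ContinuousLinearMap.smulRight_apply, smul_eq_mul]
  ring

lemma D2_exp {u : E → ℝ} (hu : ContDiff ℝ ∞ u) (p w : E) :
    D2 (fun x => Real.exp (u x)) p w =
      Real.exp (u p) * (D2 u p w + (fderiv ℝ u p w) ^ 2) := by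
  unfold D2
  have h0 : ∀ x, HasFDerivAt (fun x => Real.exp (u x)) (Real.exp (u x) • fderiv ℝ u x) x :=
    fun x => (cd_diff hu x).hasFDerivAt.exp
  have h1 : fderiv ℝ (fun x => Real.exp (u x)) = fun x => Real.exp (u x) • fderiv ℝ u x := by
    ext1 x
    exact (h0 x).fderiv
  have h2 : HasFDerivAt (fun x => Real.exp (u x) • fderiv ℝ u x) _ p :=
    ((h0 p).smul (cd_diff2 hu p).hasFDerivAt)
  rw [h1, h2.fderiv]
  simp only [add_apply, smul_apply, ContinuousLinearMap.smulRight_apply, smul_eq_mul]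
  ring

lemma fderiv_expo {u : E → ℝ} (hu : ContDiff ℝ ∞ u) (p w : E) :
    fderiv ℝ (fun x => Real.exp (u x)) p w = Real.exp (u p) * fderiv ℝ u p w := by
  rw [((cd_diff hu p).hasFDerivAt.exp).fderiv]
  rfl

lemma fderiv_clm {u : F → ℝ} (hu : ContDiff ℝ ∞ u) (L : E →L[ℝ] F) (p w : E) :
    fderiv ℝ (fun x => u (L x)) p w = fderiv ℝ u (L p) (L w) := by
  have h : HasFDerivAt (fun x => u (L x)) ((fderiv ℝ u (L p)).comp L) p :=
    (cd_diff hu (L p)).hasFDerivAt.comp p L.hasFDerivAt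
  rw [h.fderiv]; rfl

lemma D2_clm {u : F → ℝ} (hu : ContDiff ℝ ∞ u) (L : E →L[ℝ] F) (p w : E) :
    D2 (fun x => u (L x)) p w = D2 u (L p) (L w) := by
  unfold D2
  have h1 : fderiv ℝ (fun x => u (L x)) = fun x => (fderiv ℝ u (L x)).comp L := by
    ext1 x
    have h : HasFDerivAt (fun x => u (L x)) ((fderiv ℝ u (L x)).comp L) x :=
      (cd_diff hu (L x)).hasFDerivAt.comp x L.hasFDerivAt
    exact h.fderiv
  have h3 : HasFDerivAt (fun x => fderiv ℝ u (L x)) ((fderiv ℝ (fderiv ℝ u) (L p)).comp L) p :=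
    (cd_diff2 hu (L p)).hasFDerivAt.comp p L.hasFDerivAt
  have h2 : HasFDerivAt (fun x => (fderiv ℝ u (L x)).comp L) _ p :=
    h3.clm_comp (hasFDerivAt_const L p)
  rw [h1, h2.fderiv]
  simp [ContinuousLinearMap.compL_apply]

lemma D2_comp_sub {u : E → ℝ} (a : E) (p w : E) :
    D2 (fun x => u (x - a)) p w = D2 u (p - a) w := by
  unfold D2
  have h1 : fderiv ℝ (fun x => u (x - a)) = fun x => fderiv ℝ u (x - a) := by
    ext1 x
    exact fderiv_comp_sub a
  rw [h1]
  have := fderiv_comp_sub (𝕜 := ℝ) (f := fderiv ℝ u) (x := p) a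
  rw [this]

end Pool.Agent.Helper12.CC
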