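import Pool.Agent.Helper12.CC.Lev

set_option autoImplicit false
open scoped ContDiff InnerProductSpace
open Set Filter Topology

namespace Pool.Agent.Helper12.CC

/-! ### Parameters -/

noncomputable def t (i : ℕ) : ℝ := (1/16) ^ (i + 1)
def K (i : ℕ) : ℕ := Nat.log 2 (i + 2) + 1
noncomputable def d : ℕ → ℝ
  | 0 => 1
  | i + 1 => d i / ((K i : ℝ) + 4)
noncomputable def mu (i : ℕ) : ℝ := d (i + 1) / (8 * K i)
noncomputable def s (i : ℕ) : ℝ := t i * Real.exp (-(32 * (i + 1)))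
noncomputable def a (i k : ℕ) : ℂ := t i * Complex.exp (2 * Real.pi * Complex.I * k / K i)

lemma t_pos (i : ℕ) : 0 < t i := by unfold t; positivity
lemma K_pos (i : ℕ) : 0 < K i := Nat.succ_pos _
lemma K_pos' (i : ℕ) : (0:ℝ) < K i := by exact_mod_cast K_pos i
lemma K_le (i : ℕ) : (K i : ℝ) ≤ 2 * (i + 1) := by
  have h : Nat.log 2 (i + 2) < i + 2 := Nat.log_lt_self 2 (by omega)
  have : K i ≤ 2 * (i + 1) := by unfold K; omega
  exact_mod_cast this
lemma K_mono : Monotone K := by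
  intro i j h
  unfold K
  have := Nat.log_mono_right (b := 2) (show i + 2 ≤ j + 2 by omega)
  omega
lemma two_pow_K (i : ℕ) : ((i:ℝ) + 2) ≤ 2 ^ (K i) := by
  have h : i + 2 < 2 ^ (Nat.log 2 (i + 2) + 1) := Nat.lt_pow_succ_log_self (by norm_num) _
  have : i + 2 ≤ 2 ^ K i := h.le
  exact_mod_cast this
lemma d_pos (i : ℕ) : 0 < d i := by
  induction i with
  | zero => simp [d]
  | succ i ih => 
    have := K_pos' i
    simp only [d]; positivity
lemma d_succ (i : ℕ) : d (i + 1) * ((K i : ℝ) + 4) = d i := by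
  have := K_pos' i
  simp only [d]; field_simp
lemma d_succ_le (i : ℕ) : d (i + 1) ≤ d i / 4 := by
  have h := d_succ i
  have := K_pos' i
  have := d_pos (i + 1)
  nlinarith
lemma d_le (i q : ℕ) : d (i + q) ≤ d i * (1/4) ^ q := by
  induction q with
  | zero => simp
  | succ q ih =>
    have := d_succ_le (i + q)
    rw [← add_assoc, pow_succ]
    linarith
lemma d_le_one (i : ℕ) : d i ≤ 1 := by
  have h := d_le 0 i
  have : ((1:ℝ)/4) ^ i ≤ 1 := pow_le_one₀ (by norm_num) (by norm_num)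
  simp only [zero_add, d, one_mul] at h
  linarith
lemma mu_pos (i : ℕ) : 0 < mu i := by
  have := K_pos' i
  have := d_pos (i + 1)
  unfold mu; positivity
lemma mu_K (i : ℕ) : mu i * K i = d (i + 1) / 8 := by
  have := K_pos' i
  unfold mu; field_simp
lemma s_pos (i : ℕ) : 0 < s i := by
  have := t_pos i
  unfold s; positivity
lemma s_inv (i : ℕ) : (s i)⁻¹ = (16 * Real.exp 32) ^ (i + 1) := by
  unfold s t
  rw [mul_inv, ← Real.exp_neg, neg_neg, ← inv_pow, mul_pow]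
  congr 1
  · norm_num
  · rw [← Real.exp_nat_mul]; congr 1; push_cast; ring
lemma norm_a (i k : ℕ) : ‖a i k‖ = t i := by
  unfold a
  have : (2 * Real.pi * Complex.I * k / K i : ℂ) = ((2 * Real.pi * k / K i : ℝ) : ℂ) * Complex.I := by
    push_cast; ring
  rw [norm_mul, this, Complex.norm_exp_ofReal_mul_I, mul_one, Complex.norm_real,
    Real.norm_eq_abs, abs_of_pos (t_pos i)]

/-! ### building block -/

/-- scaled and translated `psi` -/
noncomputable def B (σ : ℝ) (c : ℂ) (z : ℂ) : ℝ := psi (σ⁻¹ • (z - c))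

lemma B_contDiff (σ : ℝ) (c : ℂ) : ContDiff ℝ ∞ (B σ c) := by
  have h : ContDiff ℝ ∞ (fun z : ℂ => σ⁻¹ • (z - c)) := by fun_prop
  exact psi_contDiff.comp h

lemma B_bound {n : ℕ} {M : ℝ} (hM : ∀ z : ℂ, ‖iteratedFDeriv ℝ n psi z‖ ≤ M)
    {σ : ℝ} (hσ : 0 < σ) (c z : ℂ) :
    ‖iteratedFDeriv ℝ n (B σ c) z‖ ≤ M * σ⁻¹ ^ n := by
  let A : ℂ →L[ℝ] ℂ := σ⁻¹ • ContinuousLinearMap.id ℝ ℂ
  have hM0 : 0 ≤ M := le_trans (norm_nonneg _) (hM 0)
  have hB : B σ c = fun z => (psi ∘ A) (z - c) := by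
    ext z; simp [B, A]
  have h1 : iteratedFDeriv ℝ n (B σ c) z = iteratedFDeriv ℝ n (psi ∘ A) (z - c) := by
    rw [hB, iteratedFDeriv_comp_sub]
  rw [h1, A.iteratedFDeriv_comp_right psi_contDiff _ (by exact_mod_cast le_top)]
  refine (ContinuousMultilinearMap.norm_compContinuousLinearMap_le _ _).trans ?_
  have hAn : ‖A‖ ≤ σ⁻¹ := by
    have h4 : ‖A‖ ≤ ‖σ⁻¹‖ * ‖ContinuousLinearMap.id ℝ ℂ‖ := ContinuousLinearMap.opNorm_smul_le _ _
    have h5 : ‖ContinuousLinearMap.id ℝ ℂ‖ ≤ 1 := ContinuousLinearMap.norm_id_le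
    have h6 : ‖σ⁻¹‖ = σ⁻¹ := by
      rw [Real.norm_eq_abs, abs_of_pos (by positivity)]
    rw [h6] at h4
    have : 0 < σ⁻¹ := by positivity
    nlinarith
  apply mul_le_mul (hM _) _ (by positivity) hM0
  calc ∏ _i : Fin n, ‖A‖ ≤ ∏ _i : Fin n, σ⁻¹ := by
        gcongr
    _ = σ⁻¹ ^ n := by simp

lemma B_D2 (σ : ℝ) (c z v : ℂ) : D2 (B σ c) z v = D2 psi (σ⁻¹ • (z - c)) (σ⁻¹ • v) := by
  let A : ℂ →L[ℝ] ℂ := σ⁻¹ • ContinuousLinearMap.id ℝ ℂ
  have hB : B σ c = fun z => (fun y => psi (A y)) (z - c) := by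
    ext z; simp [B, A]
  rw [hB, D2_comp_sub (u := fun y => psi (A y)), D2_clm psi_contDiff]
  rfl

lemma B_lev (σ : ℝ) (c z v : ℂ) : 0 ≤ D2 (B σ c) z v + D2 (B σ c) z (Complex.I • v) := by
  rw [B_D2, B_D2, smul_comm]
  exact psi_lev _ _

lemma B_zero (i k : ℕ) : B (s i) (a i k) 0 = 32 * (i + 1) := by
  unfold B
  have ht := t_pos i
  have hs := s_pos i
  have h1 : ‖(s i)⁻¹ • (0 - a i k)‖ = Real.exp (32 * (i + 1)) := by
    rw [norm_smul, zero_sub, norm_neg, norm_a, Real.norm_eq_abs, abs_of_pos (by positivity)]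
    unfold s
    rw [mul_inv, ← Real.exp_neg, neg_neg]
    field_simp
  rw [psi_log (by rw [h1]; exact Real.one_le_exp (by positivity)), h1, Real.log_exp]

/-- the `i`-th piece -/
noncomputable def Ph (i : ℕ) (z : ℂ) : ℝ :=
  mu i * ∑ k ∈ Finset.range (K i), (B (s i) (a i k) z + (-(32 * ((i:ℝ) + 1))))

lemma Ph_contDiff (i : ℕ) : ContDiff ℝ ∞ (Ph i) :=
  contDiff_const.mul (ContDiff.sum fun k _ => (B_contDiff _ _).add contDiff_const)

lemma Ph_zero (i : ℕ) : Ph i 0 = 0 := by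
  unfold Ph
  rw [Finset.sum_eq_zero, mul_zero]
  intro k _
  rw [B_zero]; ring

lemma Ph_D2 (i : ℕ) (z v : ℂ) : D2 (Ph i) z v =
    mu i * ∑ k ∈ Finset.range (K i), D2 (B (s i) (a i k)) z v := by
  unfold Ph
  rw [D2_const_mul (ContDiff.sum fun k _ => (B_contDiff _ _).add contDiff_const)]
  rw [D2_sum _ (fun k _ => (B_contDiff _ _).add contDiff_const)]
  simp only [D2_add_const]

lemma Ph_lev (i : ℕ) (z v : ℂ) : 0 ≤ D2 (Ph i) z v + D2 (Ph i) z (Complex.I • v) := by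
  rw [Ph_D2, Ph_D2, ← mul_add, ← Finset.sum_add_distrib]
  exact mul_nonneg (mu_pos i).le (Finset.sum_nonneg fun k _ => B_lev _ _ _ _)

lemma Ph_bound {n : ℕ} (hn : n ≠ 0) {M : ℝ} (hM : ∀ z : ℂ, ‖iteratedFDeriv ℝ n psi z‖ ≤ M)
    (i : ℕ) (z : ℂ) :
    ‖iteratedFDeriv ℝ n (Ph i) z‖ ≤ d (i + 1) / 8 * (M * (s i)⁻¹ ^ n) := by
  have h1 : Ph i = mu i • (fun z => ∑ k ∈ Finset.range (K i), (fun z => (B (s i) (a i k) z + (-(32 * ((i:ℝ) + 1))))) z) := by
    ext z; simp [Ph]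
  have hc : ∀ k, ContDiff ℝ ∞ (fun z => (B (s i) (a i k) z + (-(32 * ((i:ℝ) + 1))))) :=
    fun k => (B_contDiff _ _).add contDiff_const
  have hn' : (n : WithTop ℕ∞) ≤ ∞ := by exact_mod_cast le_top
  rw [h1, iteratedFDeriv_const_smul_apply ((ContDiff.sum fun k _ => hc k).contDiffAt.of_le hn'),
    iteratedFDeriv_fun_sum_apply (fun k _ => ((hc k).of_le hn').contDiffAt)]
  have h2 : ∀ k, ‖iteratedFDeriv ℝ n (fun z => (B (s i) (a i k) z + (-(32 * ((i:ℝ) + 1))))) z‖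
      ≤ M * (s i)⁻¹ ^ n := by
    intro k
    have h3 : (fun z => (B (s i) (a i k) z + (-(32 * ((i:ℝ) + 1))))) =
        B (s i) (a i k) + fun _ => (-(32 * ((i:ℝ) + 1))) := rfl
    rw [h3, iteratedFDeriv_add_apply ((B_contDiff _ _).contDiffAt.of_le hn') contDiffAt_const,
      iteratedFDeriv_const_of_ne hn]
    simp only [Pi.zero_apply, add_zero]
    exact B_bound hM (s_pos i) _ _
  rw [norm_smul, Real.norm_eq_abs, abs_of_pos (mu_pos i)]
  have h4 : ‖∑ k ∈ Finset.range (K i),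
      iteratedFDeriv ℝ n (fun z => (B (s i) (a i k) z + (-(32 * ((i:ℝ) + 1))))) z‖ ≤
      K i * (M * (s i)⁻¹ ^ n) := by
    refine (norm_sum_le _ _).trans ((Finset.sum_le_sum fun k _ => h2 k).trans ?_)
    simp
  have h5 := mul_le_mul_of_nonneg_left h4 (mu_pos i).le
  rw [← mul_assoc, mu_K] at h5
  simpa using h5

/-! ### the sum -/

lemma summ_aux (A : ℝ) (hA : 0 < A) : Summable (fun i : ℕ => d (i + 1) * A ^ (i + 1)) := by
  apply summable_of_ratio_test_tendsto_lt_one (l := 0) (by norm_num)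
  · filter_upwards with i
    have := d_pos (i + 1)
    positivity
  · have h1 : ∀ i : ℕ, ‖d (i + 1 + 1) * A ^ (i + 1 + 1)‖ / ‖d (i + 1) * A ^ (i + 1)‖ =
        A / ((K (i + 1) : ℝ) + 4) := by
      intro i
      have h2 := d_pos (i + 1)
      have h3 := d_pos (i + 1 + 1)
      have h4 := K_pos' (i + 1)
      rw [Real.norm_eq_abs, Real.norm_eq_abs, abs_of_pos (by positivity), abs_of_pos (by positivity)]
      have h5 := d_succ (i + 1)
      rw [div_eq_div_iff (by positivity) (by positivity), ← h5, pow_succ A (i + 1)]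
      ring
    simp only [h1]
    apply Tendsto.const_div_atTop
    have h6 : Tendsto K atTop atTop := by
      rw [tendsto_atTop]
      intro b
      filter_upwards [eventually_ge_atTop (2 ^ b)] with i hi
      have : b ≤ Nat.log 2 (i + 2) := by
        apply Nat.le_log_of_pow_le (by norm_num)
        omega
      unfold K; omega
    have h7 : Tendsto (fun i : ℕ => (K (i + 1) : ℝ)) atTop atTop :=
      (tendsto_natCast_atTop_atTop.comp h6).comp (tendsto_add_atTop_nat 1)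
    exact tendsto_atTop_add_const_right _ _ h7

lemma summ_s (n : ℕ) (M : ℝ) : Summable (fun i : ℕ => d (i + 1) / 8 * (M * (s i)⁻¹ ^ n)) := by
  have h := (summ_aux ((16 * Real.exp 32) ^ n) (by positivity)).mul_left (M / 8)
  refine h.congr fun i => ?_
  rw [s_inv, ← pow_mul, ← pow_mul, mul_comm n (i + 1)]
  ring

/-- the exponent function -/
noncomputable def Phi (z : ℂ) : ℝ := ∑' i, Ph i z

/-- chosen bounds -/
noncomputable def Mb (n : ℕ) : ℝ := if h : n ≠ 0 then (psi_bound n h).choose else 0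

lemma Mb_spec {n : ℕ} (hn : n ≠ 0) (z : ℂ) : ‖iteratedFDeriv ℝ n psi z‖ ≤ Mb n := by
  unfold Mb; rw [dif_pos hn]
  exact (psi_bound n hn).choose_spec.2 z

noncomputable def vb (n i : ℕ) : ℝ := d (i + 1) / 8 * (Mb n * (s i)⁻¹ ^ n)

lemma vb_summable (n : ℕ) : Summable (vb n) := summ_s n (Mb n)

lemma Ph_vb {n : ℕ} (hn : n ≠ 0) (i : ℕ) (z : ℂ) : ‖iteratedFDeriv ℝ n (Ph i) z‖ ≤ vb n i :=
  Ph_bound hn (Mb_spec hn) i z

lemma Ph_vb1 (i : ℕ) (z : ℂ) : ‖fderiv ℝ (Ph i) z‖ ≤ vb 1 i := by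
  have := Ph_vb one_ne_zero i z
  rwa [norm_iteratedFDeriv_one] at this

lemma Ph_vb2 (i : ℕ) (z : ℂ) : ‖fderiv ℝ (fderiv ℝ (Ph i)) z‖ ≤ vb 2 i := by
  have := Ph_vb (n := 1 + 1) (by norm_num) i z
  rwa [← norm_iteratedFDeriv_fderiv, norm_iteratedFDeriv_one] at this

lemma Ph_zero_summable : Summable (fun i => Ph i 0) := by
  simp only [Ph_zero]; exact summable_zero

lemma Ph_summable (z : ℂ) : Summable (fun i => Ph i z) :=
  summable_of_summable_hasFDerivAt (𝕜 := ℝ) (vb_summable 1)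
    (fun i x => (cd_diff (Ph_contDiff i) x).hasFDerivAt) (fun i x => Ph_vb1 i x)
    Ph_zero_summable z

lemma Phi_zero : Phi 0 = 0 := by
  unfold Phi; simp only [Ph_zero, tsum_zero]

lemma Phi_hasFDerivAt (z : ℂ) : HasFDerivAt Phi (∑' i, fderiv ℝ (Ph i) z) z :=
  hasFDerivAt_tsum (𝕜 := ℝ) (vb_summable 1)
    (fun i x => (cd_diff (Ph_contDiff i) x).hasFDerivAt) (fun i x => Ph_vb1 i x)
    Ph_zero_summable z

lemma Phi_fderiv : fderiv ℝ Phi = fun z => ∑' i, fderiv ℝ (Ph i) z :=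
  funext fun z => (Phi_hasFDerivAt z).fderiv

lemma Phi_contDiff : ContDiff ℝ ∞ Phi := by
  rw [contDiff_infty_iff_fderiv]
  refine ⟨fun z => (Phi_hasFDerivAt z).differentiableAt, ?_⟩
  rw [Phi_fderiv]
  apply contDiff_tsum (v := fun k i => vb (k + 1) i)
    (fun i => (contDiff_infty_iff_fderiv.mp (Ph_contDiff i)).2)
  · intro k _
    exact vb_summable (k + 1)
  · intro k i x _
    rw [norm_iteratedFDeriv_fderiv]
    exact Ph_vb (by omega) i x

lemma D2_hasF {u : ℂ → ℝ} (hu : ContDiff ℝ ∞ u) (v p : ℂ) :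
    HasFDerivAt (fun x => fderiv ℝ u x v)
      ((ContinuousLinearMap.apply ℝ ℝ v).comp (fderiv ℝ (fderiv ℝ u) p)) p :=
  (ContinuousLinearMap.apply ℝ ℝ v).hasFDerivAt.comp p (cd_diff2 hu p).hasFDerivAt

lemma D2_eq {u : ℂ → ℝ} (hu : ContDiff ℝ ∞ u) (p v : ℂ) :
    D2 u p v = fderiv ℝ (fun x => fderiv ℝ u x v) p v := by
  rw [(D2_hasF hu v p).fderiv]; rfl

lemma Ph_b (i : ℕ) (z v : ℂ) : ‖fderiv ℝ (fun x => fderiv ℝ (Ph i) x v) z‖ ≤ ‖v‖ * vb 2 i := by
  rw [(D2_hasF (Ph_contDiff i) v z).fderiv]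
  refine (ContinuousLinearMap.opNorm_comp_le _ _).trans ?_
  have h1 : ‖(ContinuousLinearMap.apply ℝ ℝ v : (ℂ →L[ℝ] ℝ) →L[ℝ] ℝ)‖ ≤ ‖v‖ := by
    apply ContinuousLinearMap.opNorm_le_bound _ (norm_nonneg _)
    intro L
    rw [mul_comm]
    exact L.le_opNorm v
  exact mul_le_mul h1 (Ph_vb2 i z) (norm_nonneg _) (norm_nonneg _)

lemma Ph_dsummable (z v : ℂ) : Summable (fun i => fderiv ℝ (Ph i) z v) := by
  apply Summable.of_norm_bounded (g := fun i => vb 1 i * ‖v‖) ((vb_summable 1).mul_right _)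
  intro i
  exact (ContinuousLinearMap.le_opNorm _ _).trans
    (mul_le_mul_of_nonneg_right (Ph_vb1 i z) (norm_nonneg _))

lemma Phi_dir (v : ℂ) : (fun z => fderiv ℝ Phi z v) = fun z => ∑' i, fderiv ℝ (Ph i) z v := by
  ext z
  rw [Phi_fderiv]
  have h : Summable (fun i => fderiv ℝ (Ph i) z) := 
    Summable.of_norm_bounded (vb_summable 1) fun i => Ph_vb1 i z
  have := (ContinuousLinearMap.apply ℝ ℝ v).map_tsum h
  exact this

lemma Phi_D2 (z v : ℂ) : HasSum (fun i => D2 (Ph i) z v) (D2 Phi z v) := by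
  have h1 : HasFDerivAt (fun z => ∑' i, fderiv ℝ (Ph i) z v)
      (∑' i, fderiv ℝ (fun x => fderiv ℝ (Ph i) x v) z) z :=
    hasFDerivAt_tsum (𝕜 := ℝ) (x₀ := 0) ((vb_summable 2).mul_left ‖v‖)
      (fun i x => (D2_hasF (Ph_contDiff i) v x).differentiableAt.hasFDerivAt)
      (fun i x => Ph_b i x v) (Ph_dsummable 0 v) z
  have h2 : Summable (fun i => fderiv ℝ (fun x => fderiv ℝ (Ph i) x v) z) := by
    apply Summable.of_norm_bounded (g := fun i => ‖v‖ * vb 2 i) ((vb_summable 2).mul_left ‖v‖)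
    intro i
    exact Ph_b i z v
  have h3 : HasSum (fun i => fderiv ℝ (fun x => fderiv ℝ (Ph i) x v) z v)
      ((∑' i, fderiv ℝ (fun x => fderiv ℝ (Ph i) x v) z) v) :=
    (ContinuousLinearMap.apply ℝ ℝ v).hasSum h2.hasSum
  rw [D2_eq Phi_contDiff, Phi_dir, h1.fderiv]
  simp only [D2_eq (Ph_contDiff _)]
  exact h3

lemma Phi_lev (z v : ℂ) : 0 ≤ D2 Phi z v + D2 Phi z (Complex.I • v) :=
  ((Phi_D2 z v).add (Phi_D2 z (Complex.I • v))).nonneg fun i => Ph_lev i z v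

end Pool.Agent.Helper12.CC
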