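import Mathlib

set_option autoImplicit false
open scoped ContDiff InnerProductSpace
open Set Filter Topology

namespace Pool.Agent.Helper12.CC

/-- cut-off: zero for `x ≤ 1/2`, one for `x ≥ 1` -/
noncomputable def T (x : ℝ) : ℝ := Real.smoothTransition (2 * x - 1)

lemma T_contDiff : ContDiff ℝ ∞ T :=
  Real.smoothTransition.contDiff.comp ((contDiff_const.mul contDiff_id).sub contDiff_const)
lemma T_nonneg (x : ℝ) : 0 ≤ T x := Real.smoothTransition.nonneg _
lemma T_le_one (x : ℝ) : T x ≤ 1 := Real.smoothTransition.le_one _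
lemma T_zero {x : ℝ} (h : x ≤ 1/2) : T x = 0 :=
  Real.smoothTransition.zero_of_nonpos (by linarith)
lemma T_one {x : ℝ} (h : 1 ≤ x) : T x = 1 := Real.smoothTransition.one_of_one_le (by linarith)
lemma T_pos {x : ℝ} (h : 1/2 < x) : 0 < T x := Real.smoothTransition.pos_of_pos (by linarith)
lemma T_mono : Monotone T := fun x y h => Real.smoothTransition.monotone (by linarith)

/-- `q x = T x / (2 x)` -/
noncomputable def q (x : ℝ) : ℝ := T x / (2 * x)

lemma q_nonneg (x : ℝ) : 0 ≤ q x := by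
  unfold q
  by_cases hx : x ≤ 1/2
  · simp [T_zero hx]
  · push Not at hx
    have := T_nonneg x
    positivity

lemma mul_q (x : ℝ) : x * q x = T x / 2 := by
  unfold q
  by_cases hx : x = 0
  · subst hx; simp [T_zero (show (0:ℝ) ≤ 1/2 by norm_num)]
  · field_simp

lemma q_contDiff : ContDiff ℝ ∞ q := by
  rw [contDiff_iff_contDiffAt]
  intro x
  by_cases hx : x < 1/2
  · have : q =ᶠ[𝓝 x] fun _ => 0 := by
      filter_upwards [Iio_mem_nhds hx] with y hy
      simp [q, T_zero (le_of_lt hy)]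
    exact contDiffAt_const.congr_of_eventuallyEq this
  · have hx0 : x ≠ 0 := by
      intro h; apply hx; rw [h]; norm_num
    exact T_contDiff.contDiffAt.div (contDiffAt_const.mul contDiffAt_id) (by simp [hx0])

noncomputable def g (x : ℝ) : ℝ := ∫ y in (1:ℝ)..x, q y

lemma g_hasDerivAt (x : ℝ) : HasDerivAt g (q x) x :=
  intervalIntegral.integral_hasDerivAt_right (q_contDiff.continuous.intervalIntegrable _ _)
    (q_contDiff.continuous.stronglyMeasurableAtFilter _ _) q_contDiff.continuous.continuousAt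

lemma g_contDiff : ContDiff ℝ ∞ g := by
  rw [contDiff_infty_iff_deriv]
  refine ⟨fun x => (g_hasDerivAt x).differentiableAt, ?_⟩
  have : deriv g = q := funext fun x => (g_hasDerivAt x).deriv
  rw [this]; exact q_contDiff

lemma g_mono : Monotone g :=
  monotone_of_deriv_nonneg (fun x => (g_hasDerivAt x).differentiableAt)
    (fun x => by rw [(g_hasDerivAt x).deriv]; exact q_nonneg x)

lemma g_one : g 1 = 0 := by simp [g]

lemma g_log {x : ℝ} (hx : 1 ≤ x) : g x = Real.log x / 2 := by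
  have h : ∀ y ∈ uIcc (1:ℝ) x, q y = (1/2) * (1 / y) := by
    intro y hy
    rw [uIcc_of_le hx] at hy
    have hy0 : y ≠ 0 := by linarith [hy.1]
    unfold q
    rw [T_one hy.1]; field_simp
  unfold g
  rw [intervalIntegral.integral_congr h, intervalIntegral.integral_const_mul,
    integral_one_div_of_pos one_pos (by linarith)]
  simp; ring

lemma g_const {x : ℝ} (hx : x ≤ 1/2) : g x = g 0 := by
  have h1 : ∀ y ∈ uIcc (0:ℝ) x, q y = 0 := by
    intro y hy
    have : y ≤ 1/2 := by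
      rcases le_total 0 x with h | h
      · rw [uIcc_of_le h] at hy; linarith [hy.2]
      · rw [uIcc_of_ge h] at hy; linarith [hy.2]
    simp [q, T_zero this]
  have h2 : g x - g 0 = ∫ y in (0:ℝ)..x, q y := by
    unfold g
    rw [intervalIntegral.integral_interval_sub_left
      (q_contDiff.continuous.intervalIntegrable _ _) (q_contDiff.continuous.intervalIntegrable _ _)]
  rw [intervalIntegral.integral_congr h1] at h2
  simp at h2
  linarith

/-- the smoothed logarithm -/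
noncomputable def psi (z : ℂ) : ℝ := g (‖z‖ ^ 2)

lemma psi_contDiff : ContDiff ℝ ∞ psi := g_contDiff.comp (contDiff_norm_sq ℝ)

lemma psi_log {z : ℂ} (hz : 1 ≤ ‖z‖) : psi z = Real.log ‖z‖ := by
  unfold psi
  rw [g_log (by nlinarith)]
  rw [Real.log_pow]; push_cast; ring

lemma psi_mono {z w : ℂ} (h : ‖z‖ ≤ ‖w‖) : psi z ≤ psi w :=
  g_mono (by gcongr)

lemma psi_le {z : ℂ} {r : ℝ} (hr : 1 ≤ r) (hz : ‖z‖ ≤ r) : psi z ≤ Real.log r := by
  have hn : ‖(r:ℂ)‖ = r := by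
    rw [Complex.norm_real, Real.norm_eq_abs, abs_of_pos (by linarith : (0:ℝ) < r)]
  have h := psi_mono (z := z) (w := (r:ℂ)) (by rw [hn]; exact hz)
  rwa [psi_log (z := (r:ℂ)) (by rw [hn]; exact hr), hn] at h

lemma psi_nonpos {z : ℂ} (hz : ‖z‖ ≤ 1) : psi z ≤ 0 := by
  simpa using psi_le le_rfl hz

lemma psi_flat {z : ℂ} (hz : ‖z‖ ^ 2 ≤ 1/2) : psi z = psi 0 := by
  unfold psi
  rw [g_const hz]; simp

/-! ### Levi form -/

/-- Levi form (Laplacian along the complex line through `p` in direction `v`) -/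
noncomputable def Lev {E : Type*} [NormedAddCommGroup E] [NormedSpace ℝ E] [Module ℂ E]
    (u : E → ℝ) (p v : E) : ℝ :=
  fderiv ℝ (fderiv ℝ u) p v v + fderiv ℝ (fderiv ℝ u) p (Complex.I • v) (Complex.I • v)

lemma psi_hasFDerivAt (z : ℂ) : HasFDerivAt psi ((2 * q (‖z‖ ^ 2)) • innerSL ℝ z) z := by
  have h1 : HasFDerivAt (fun z : ℂ => ‖z‖ ^ 2) (2 • innerSL ℝ z) z :=
    (hasStrictFDerivAt_norm_sq z).hasFDerivAt
  have h2 := (g_hasDerivAt (‖z‖ ^ 2)).comp_hasFDerivAt z h1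
  refine h2.congr_fderiv ?_
  ext v
  simp
  ring

lemma psi_fderiv : fderiv ℝ psi = fun z => (2 * q (‖z‖ ^ 2)) • innerSL ℝ z :=
  funext fun z => (psi_hasFDerivAt z).fderiv

lemma psi_fderiv2 (z v : ℂ) : fderiv ℝ (fderiv ℝ psi) z v v =
    2 * q (‖z‖ ^ 2) * ‖v‖ ^ 2 + 4 * deriv q (‖z‖ ^ 2) * ⟪z, v⟫_ℝ ^ 2 := by
  rw [psi_fderiv]
  have h1 : HasFDerivAt (fun z : ℂ => ‖z‖ ^ 2) (2 • innerSL ℝ z) z :=
    (hasStrictFDerivAt_norm_sq z).hasFDerivAt
  have hq : HasDerivAt q (deriv q (‖z‖ ^ 2)) (‖z‖ ^ 2) :=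
    ((q_contDiff.differentiable (by simp)) _).hasDerivAt
  have h2 : HasFDerivAt (fun z : ℂ => 2 * q (‖z‖ ^ 2))
      ((2 * deriv q (‖z‖ ^ 2)) • (2 • innerSL ℝ z)) z := by
    have := (hq.comp_hasFDerivAt z h1).const_mul 2
    refine this.congr_fderiv ?_
    ext v
    simp
    ring
  have h3 : HasFDerivAt (fun z : ℂ => innerSL ℝ z) (innerSL ℝ (E := ℂ)) z :=
    (innerSL ℝ (E := ℂ)).hasFDerivAt
  have h4 := h2.smul h3
  have h5 : fderiv ℝ (fun z : ℂ => (2 * q (‖z‖ ^ 2)) • innerSL ℝ z) z = _ := h4.fderiv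
  rw [h5]
  simp only [add_apply, smul_apply,
    ContinuousLinearMap.smulRight_apply, smul_eq_mul, innerSL_apply_apply, nsmul_eq_mul]
  have h6 : ((innerSL ℝ) v) v = ‖v‖ ^ 2 := by
    rw [innerSL_apply_apply, real_inner_self_eq_norm_sq]
  rw [h6]
  push_cast
  ring

lemma inner_sq_add (z v : ℂ) : ⟪z, v⟫_ℝ ^ 2 + ⟪z, Complex.I • v⟫_ℝ ^ 2 = ‖z‖ ^ 2 * ‖v‖ ^ 2 := by
  rw [← Complex.normSq_eq_norm_sq, ← Complex.normSq_eq_norm_sq]
  simp only [Complex.inner, Complex.normSq_apply, smul_eq_mul, Complex.mul_re, Complex.mul_im,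
    Complex.conj_re, Complex.conj_im, Complex.I_re, Complex.I_im]
  ring

lemma psi_lev (z v : ℂ) : 0 ≤ Lev psi z v := by
  unfold Lev
  rw [psi_fderiv2, psi_fderiv2]
  have hI : ‖Complex.I • v‖ = ‖v‖ := by simp
  rw [hI]
  have h := inner_sq_add z v
  set x := ‖z‖ ^ 2 with hx
  have hder : q x + x * deriv q x = deriv T x / 2 := by
    have hq : HasDerivAt q (deriv q x) x := ((q_contDiff.differentiable (by simp)) _).hasDerivAt
    have hT : HasDerivAt T (deriv T x) x := ((T_contDiff.differentiable (by simp)) _).hasDerivAt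
    have h1 : HasDerivAt (fun y => y * q y) (1 * q x + x * deriv q x) x :=
      (hasDerivAt_id x).mul hq
    have h2 : (fun y => y * q y) = fun y => T y / 2 := funext mul_q
    rw [h2] at h1
    have := h1.unique (hT.div_const 2)
    linarith
  have hTd : 0 ≤ deriv T x := T_mono.deriv_nonneg
  have : 2 * q x * ‖v‖ ^ 2 + 4 * deriv q x * ⟪z, v⟫_ℝ ^ 2 +
      (2 * q x * ‖v‖ ^ 2 + 4 * deriv q x * ⟪z, Complex.I • v⟫_ℝ ^ 2) =
      4 * ‖v‖ ^ 2 * (q x + x * deriv q x) := by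
    have : 4 * deriv q x * ⟪z, v⟫_ℝ ^ 2 + 4 * deriv q x * ⟪z, Complex.I • v⟫_ℝ ^ 2 =
      4 * deriv q x * (x * ‖v‖ ^ 2) := by rw [← h]; ring
    linarith
  rw [this, hder]
  positivity

/-! ### bounds for the derivatives -/

lemma psi_scale {l : ℝ} (hl : 0 < l) {y : ℂ} (h1 : 1 ≤ ‖y‖) (hy : l ≤ ‖y‖) :
    psi y = psi (l⁻¹ • y) + Real.log l := by
  have h2 : ‖l⁻¹ • y‖ = ‖y‖ / l := by
    rw [norm_smul, Real.norm_eq_abs, abs_of_pos (by positivity)]; field_simp
  rw [psi_log h1, psi_log (by rw [h2, le_div_iff₀ hl]; linarith), h2,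
    Real.log_div (by linarith) (by linarith)]
  ring

lemma psi_bound (n : ℕ) (hn : n ≠ 0) :
    ∃ M : ℝ, 0 ≤ M ∧ ∀ z : ℂ, ‖iteratedFDeriv ℝ n psi z‖ ≤ M := by
  have hcont : Continuous (iteratedFDeriv ℝ n psi) :=
    psi_contDiff.continuous_iteratedFDeriv (by exact_mod_cast le_top)
  obtain ⟨M, hM⟩ := (isCompact_closedBall (0:ℂ) 2).exists_bound_of_continuousOn
    hcont.continuousOn
  have hM0 : 0 ≤ M := le_trans (norm_nonneg _) (hM 0 (by simp))
  refine ⟨M, hM0, fun z => ?_⟩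
  by_cases hz : ‖z‖ ≤ 2
  · exact hM z (by simpa using hz)
  push Not at hz
  set l : ℝ := ‖z‖ / 2 with hl
  have hl1 : 1 < l := by rw [hl]; linarith
  have hl0 : 0 < l := by linarith
  have hloc : psi =ᶠ[𝓝 z] fun y => psi (l⁻¹ • y) + Real.log l := by
    have : ∀ᶠ y in 𝓝 z, l < ‖y‖ :=
      continuous_norm.continuousAt.eventually (lt_mem_nhds (by rw [hl]; linarith))
    filter_upwards [this] with y hy
    exact psi_scale hl0 (by linarith) hy.le
  rw [hloc.iteratedFDeriv (𝕜 := ℝ) n |>.eq_of_nhds]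
  let A : ℂ →L[ℝ] ℂ := l⁻¹ • ContinuousLinearMap.id ℝ ℂ
  have hA : (fun y => psi (l⁻¹ • y)) = psi ∘ A := by
    ext y; simp [A]
  have h3 : iteratedFDeriv ℝ n (fun y => psi (l⁻¹ • y) + Real.log l) z =
      iteratedFDeriv ℝ n (psi ∘ A) z := by
    have := iteratedFDeriv_add_apply (𝕜 := ℝ) (i := n) (x := z) (f := psi ∘ A)
      (g := fun _ => Real.log l)
      ((psi_contDiff.comp A.contDiff).contDiffAt.of_le (by exact_mod_cast le_top)) contDiffAt_const
    have h4 : (fun y => psi (l⁻¹ • y) + Real.log l) = (psi ∘ A) + (fun _ => Real.log l) := by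
      ext y; simp [A]
    rw [h4, this, iteratedFDeriv_const_of_ne hn]
    simp
  rw [h3, A.iteratedFDeriv_comp_right psi_contDiff z (by exact_mod_cast le_top)]
  refine (ContinuousMultilinearMap.norm_compContinuousLinearMap_le _ _).trans ?_
  have hAn : ‖A‖ ≤ 1 := by
    have : ‖A‖ ≤ ‖l⁻¹‖ * ‖ContinuousLinearMap.id ℝ ℂ‖ := ContinuousLinearMap.opNorm_smul_le _ _
    have h5 : ‖ContinuousLinearMap.id ℝ ℂ‖ ≤ 1 := ContinuousLinearMap.norm_id_le
    have h6 : ‖l⁻¹‖ ≤ 1 := by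
      rw [Real.norm_eq_abs, abs_of_pos (by positivity)]; exact inv_le_one_of_one_le₀ hl1.le
    nlinarith [norm_nonneg (l⁻¹), norm_nonneg (ContinuousLinearMap.id ℝ ℂ)]
  have hAz : ‖A z‖ ≤ 2 := by
    have hA1 : A z = l⁻¹ • z := rfl
    rw [hA1, norm_smul, Real.norm_eq_abs]
    rw [abs_of_pos (by positivity), hl]
    have : ‖z‖ ≠ 0 := by linarith
    field_simp; rfl
  have h7 : ‖iteratedFDeriv ℝ n psi (A z)‖ ≤ M := hM _ (by simpa using hAz)
  calc ‖iteratedFDeriv ℝ n psi (A z)‖ * ∏ _i : Fin n, ‖A‖ ≤ M * 1 := by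
        apply mul_le_mul h7 _ (by positivity) hM0
        exact Finset.prod_le_one (fun _ _ => norm_nonneg _) (fun _ _ => hAn)
    _ = M := mul_one _

end Pool.Agent.Helper12.CC
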